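import Pool.Agent.H796R3.AO.Defs

set_option autoImplicit false

/-!
# Tasks for project H796AO
-/

namespace Pool.Agent.H796R3.AO

/-- Task A: acyclic `T`-odd orientations are the same as vertex orders with prescribed parities of
the number of edges to earlier vertices. -/
def TaskA : Prop :=
  ∀ (W : Type) [Fintype W] (G : MGraph W) (T : Set W),
    HasAcyclicTOdd G T ↔
      ∃ l : List W, l.Nodup ∧ (∀ w, w ∈ l) ∧
        ∀ (l1 : List W) (e : W) (l2 : List W), l = l1 ++ e :: l2 → (Odd ((l1.map (fun u => G.m u e)).sum) ↔ e ∈ T)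

/-- Task B: perfect matchings of the auxiliary graph are the same as balanced labellings. -/
def TaskB : Prop :=
  ∀ (V E : Type) [Fintype V] [Fintype E] [DecidableEq V] (Γ : Root V E) (T : Set E),
    (∃ σ : E → V → Bool, Balanced Γ T σ) ↔
      ∃ M : (Γ.aux T).Subgraph, M.IsPerfectMatching

end Pool.Agent.H796R3.AO
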