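import Pool.Agent.H796R3.AO.Cuts
import Pool.Agent.H580R3.AOTaskA

set_option autoImplicit false

/-!
# Normal form: adding a root
-/

namespace Pool.Agent.H796R3.AO

open Finset

variable {W : Type}

open Classical in
/-- The graph `G` with a new vertex `none` joined by a single edge to every vertex outside `T`. -/
noncomputable def cone (G : MGraph W) (T : Set W) : MGraph (Option W) where
  m
    | none, none => 0
    | none, some v => if v ∈ T then 0 else 1
    | some v, none => if v ∈ T then 0 else 1
    | some u, some v => G.m u v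
  symm := by
    rintro (_ | u) (_ | v)
    · rfl
    · rfl
    · rfl
    · exact G.symm u v
  loopless := by
    rintro (_ | u)
    · rfl
    · exact G.loopless u

theorem ext_of_list [DecidableEq W] (m : W → W → ℕ) (T : Set W) (l : List W) (hl : l.Nodup)
    (h : ∀ (l1 : List W) (e : W) (l2 : List W), l = l1 ++ e :: l2 →
      (Odd ((l1.map (fun u => m u e)).sum) ↔ e ∈ T)) : Ext m T ∅ l.toFinset := by
  induction l using List.reverseRecOn with
  | nil => exact Ext.refl
  | append_singleton l v ih =>
    rw [List.nodup_append] at hl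
    have hv : v ∉ l := fun hv => hl.2.2 v hv v (List.mem_singleton_self v) rfl
    have e1 : (l ++ [v]).toFinset = insert v l.toFinset := by
      ext w; simp [or_comm]
    rw [e1]
    refine Ext.cons _ v (by simpa using hv) ?_ (ih hl.1 ?_)
    · rw [← h l v [] rfl, List.sum_toFinset _ hl.1]
    · intro l1 e l2 hsp
      exact h l1 e (l2 ++ [v]) (by rw [hsp]; simp)

theorem list_of_ext [DecidableEq W] (m : W → W → ℕ) (T : Set W) {S : Finset W}
    (h : Ext m T ∅ S) : ∃ l : List W, l.Nodup ∧ l.toFinset = S ∧
      ∀ (l1 : List W) (e : W) (l2 : List W), l = l1 ++ e :: l2 →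
      (Odd ((l1.map (fun u => m u e)).sum) ↔ e ∈ T) := by
  induction h with
  | refl => exact ⟨[], List.nodup_nil, rfl, fun l1 e l2 h => by simp at h⟩
  | cons S v hv hp _ ih =>
    obtain ⟨l, hl, hlS, hpar⟩ := ih
    have hvl : v ∉ l := by rw [← List.mem_toFinset, hlS]; exact hv
    refine ⟨l ++ [v], ?_, ?_, ?_⟩
    · rw [List.nodup_append]
      refine ⟨hl, List.nodup_singleton v, ?_⟩
      intro a ha b hb
      rw [List.mem_singleton] at hb
      rintro rfl
      exact hvl (hb ▸ ha)
    · rw [← hlS]; ext w; simp [or_comm]
    · intro l1 e l2 hsp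
      rcases List.eq_nil_or_concat l2 with h2 | ⟨l2', w, h2⟩
      · subst h2
        have := List.append_inj' hsp rfl
        rw [List.cons.injEq] at this
        obtain ⟨rfl, rfl, _⟩ := this
        rw [← hp, ← hlS, List.sum_toFinset _ hl]
      · rw [List.concat_eq_append] at h2
        subst h2
        have hsp' : l ++ [v] = (l1 ++ e :: l2') ++ [w] := by rw [hsp]; simp
        have := List.append_inj' hsp' rfl
        exact hpar l1 e l2' this.1

theorem hasAcyclicTOdd_iff [Fintype W] [DecidableEq W] (G : MGraph W) (T : Set W) :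
    HasAcyclicTOdd G T ↔ Ext G.m T ∅ Finset.univ := by
  rw [Pool.Agent.H580R3.AOTaskA.taskA W G T]
  constructor
  · rintro ⟨l, hl, hall, hpar⟩
    have := ext_of_list G.m T l hl hpar
    have e : l.toFinset = Finset.univ := by ext w; simp [hall w]
    rwa [e] at this
  · intro h
    obtain ⟨l, hl, hlS, hpar⟩ := list_of_ext G.m T h
    refine ⟨l, hl, fun w => ?_, hpar⟩
    rw [← List.mem_toFinset, hlS]; exact Finset.mem_univ w

theorem cone_sum [DecidableEq W] (G : MGraph W) (T : Set W) (S : Finset W) (v : W) :
    ∑ u ∈ insert none (S.map Function.Embedding.some), (cone G T).m u (some v) =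
      (cone G T).m none (some v) + ∑ u ∈ S, G.m u v := by
  rw [Finset.sum_insert (by simp), Finset.sum_map]
  rfl

theorem cone_parity [DecidableEq W] (G : MGraph W) (T : Set W) (S : Finset W) (v : W) :
    Odd (∑ u ∈ insert none (S.map Function.Embedding.some), (cone G T).m u (some v)) ↔
      (Odd (∑ u ∈ S, G.m u v) ↔ v ∈ T) := by
  rw [cone_sum]
  by_cases hv : v ∈ T
  · have : (cone G T).m none (some v) = 0 := if_pos hv
    rw [this, zero_add]
    exact ⟨fun h => ⟨fun _ => hv, fun _ => h⟩, fun h => h.mpr hv⟩
  · have : (cone G T).m none (some v) = 1 := if_neg hv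
    rw [this, add_comm, Nat.odd_add_one]
    exact ⟨fun h => ⟨fun h' => absurd h' h, fun h' => absurd h' hv⟩, fun h h' => hv (h.mp h')⟩

theorem cone_fwd [DecidableEq W] (G : MGraph W) (T : Set W) {S : Finset W}
    (h : Ext G.m T ∅ S) : Ext (cone G T).m {v | v ≠ none} {none}
      (insert none (S.map Function.Embedding.some)) := by
  induction h with
  | refl => simpa using Ext.refl
  | cons S v hv hp _ ih =>
    rw [Finset.map_insert, Finset.insert_comm]
    refine Ext.cons _ (some v) ?_ ?_ ih
    · simpa using hv
    · rw [cone_parity]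
      exact ⟨fun _ => by simp, fun _ => hp⟩

theorem cone_bwd [DecidableEq W] (G : MGraph W) (T : Set W) {S' : Finset (Option W)}
    (h : Ext (cone G T).m {v | v ≠ none} {none} S') :
    ∃ S : Finset W, S' = insert none (S.map Function.Embedding.some) ∧ Ext G.m T ∅ S := by
  induction h with
  | refl => exact ⟨∅, by simp, Ext.refl⟩
  | cons S' v' hv hp hE ih =>
    obtain ⟨S, hS, hE'⟩ := ih
    rcases v' with _ | v
    · exact absurd (hE.sub (Finset.mem_singleton_self _)) hv
    · refine ⟨insert v S, ?_, ?_⟩
      · rw [Finset.map_insert, Finset.insert_comm, hS]; rfl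
      · refine Ext.cons S v ?_ ?_ hE'
        · rw [hS] at hv; simpa using hv
        · rw [hS, cone_parity] at hp
          exact hp.mpr (by simp)

/-- normal form. -/
theorem cone_iff [Fintype W] [DecidableEq W] (G : MGraph W) (T : Set W) :
    HasAcyclicTOdd G T ↔ Reducible (cone G T).m Finset.univ := by
  rw [hasAcyclicTOdd_iff]
  constructor
  · intro h
    have h1 := cone_fwd G T h
    have e : insert none ((Finset.univ : Finset W).map Function.Embedding.some) =
        (Finset.univ : Finset (Option W)) := by
      ext w; rcases w with _ | w <;> simp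
    rw [e] at h1
    exact reducible_of_root (cone G T).loopless h1
  · intro h
    have h1 := h.any_root (cone G T).loopless (cone G T).symm (Finset.mem_univ none)
    obtain ⟨S, hS, hE⟩ := cone_bwd G T h1
    have e : S = Finset.univ := by
      ext w
      have : some w ∈ insert none (S.map Function.Embedding.some) := by
        rw [← hS]; exact Finset.mem_univ _
      simpa using this
    rwa [e] at hE

theorem reducible_iff_root [Fintype W] [DecidableEq W] (G : MGraph W) (r : W) :
    Reducible G.m Finset.univ ↔ HasAcyclicTOdd G {v | v ≠ r} := by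
  rw [hasAcyclicTOdd_iff]
  constructor
  · intro h
    exact (h.any_root G.loopless G.symm (Finset.mem_univ r)).of_root
  · intro h
    exact (reducible_iff G.loopless _).mpr ⟨r, Finset.mem_univ r, h⟩

theorem reducible_universal [Fintype W] [DecidableEq W] (G : MGraph W)
    (h : Reducible G.m Finset.univ) (T : Set W) (hT : Odd (Tᶜ).ncard) : HasAcyclicTOdd G T := by
  classical
  rw [hasAcyclicTOdd_iff]
  obtain ⟨k, hk⟩ := hT
  refine h.universal G.loopless G.symm T ⟨k, (Tᶜ).toFinset, ?_, Finset.subset_univ _, ?_⟩
  · rw [← Set.ncard_eq_toFinset_card']; exact hk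
  · intro v _; simp

end Pool.Agent.H796R3.AO
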