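import Pool.Agent.H796R3.AO.Ext

set_option autoImplicit false

/-!
# Cuts with at most two vertices
-/

namespace Pool.Agent.H796R3.AO

open Finset

variable {W : Type} [DecidableEq W]

/-- The multiplicity function `m` with the number of edges joining `a` and `b` replaced by `c`. -/
def setAB (m : W → W → ℕ) (a b : W) (c : ℕ) : W → W → ℕ :=
  fun u v => if (u = a ∧ v = b) ∨ (u = b ∧ v = a) then c else m u v

theorem setAB_of_ne {m : W → W → ℕ} {a b : W} {c : ℕ} {u v : W} (h1 : v ≠ a) (h2 : v ≠ b) :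
    setAB m a b c u v = m u v := by
  unfold setAB
  rw [if_neg]
  rintro (h | h)
  · exact h2 h.2
  · exact h1 h.2

theorem setAB_loop {m : W → W → ℕ} (hl : ∀ u, m u u = 0) {a b : W} (hab : a ≠ b) {c : ℕ} (u : W) :
    setAB m a b c u u = 0 := by
  unfold setAB
  rw [if_neg, hl]
  rintro (h | h)
  · exact hab (h.1.symm.trans h.2)
  · exact hab (h.2.symm.trans h.1)

theorem setAB_symm {m : W → W → ℕ} (hs : ∀ u v, m u v = m v u) {a b : W} {c : ℕ} (u v : W) :
    setAB m a b c u v = setAB m a b c v u := by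
  unfold setAB
  by_cases h : (u = a ∧ v = b) ∨ (u = b ∧ v = a)
  · have h' : (v = a ∧ u = b) ∨ (v = b ∧ u = a) := by
      rcases h with h | h
      · exact Or.inr ⟨h.2, h.1⟩
      · exact Or.inl ⟨h.2, h.1⟩
    rw [if_pos h, if_pos h']
  · have h' : ¬ ((v = a ∧ u = b) ∨ (v = b ∧ u = a)) := by
      rintro (h' | h')
      · exact h (Or.inr ⟨h'.2, h'.1⟩)
      · exact h (Or.inl ⟨h'.2, h'.1⟩)
    rw [if_neg h, if_neg h', hs]

theorem sum_setAB {m : W → W → ℕ} {a b : W} (hab : a ≠ b) {c : ℕ} {Q : Finset W} (ha : a ∈ Q)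
    : ∑ u ∈ Q, setAB m a b c u b = c + ∑ u ∈ Q.erase a, m u b := by
  rw [← Finset.add_sum_erase Q _ ha]
  have h1 : setAB m a b c a b = c := by unfold setAB; rw [if_pos (Or.inl ⟨rfl, rfl⟩)]
  rw [h1]
  congr 1
  refine Finset.sum_congr rfl fun u hu => ?_
  unfold setAB
  rw [if_neg]
  rintro (h | h)
  · exact Finset.ne_of_mem_erase hu h.1
  · exact hab h.2.symm

theorem zero_cut {m : W → W → ℕ} (hl : ∀ u, m u u = 0) (hs : ∀ u v, m u v = m v u)
    {S1 S2 : Finset W} (h1 : S1.Nonempty) (h2 : S2.Nonempty) (hI : Disjoint S1 S2)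
    (hsep : ∀ u ∈ S1, ∀ v ∈ S2, m u v = 0) : ¬ Reducible m (S1 ∪ S2) := by
  intro h
  obtain ⟨r, hr⟩ := h1
  have hr2 : r ∉ S2 := Finset.disjoint_left.mp hI hr
  have hE := h.any_root hl hs (Finset.mem_union_left S2 hr)
  have hR : Ext m {v | v ≠ r} ({r} ∩ S2) ((S1 ∪ S2) ∩ S2) := by
    refine hE.restrict S2 (fun _ _ _ _ _ _ _ => rfl) ?_ (fun _ _ _ _ => Iff.rfl)
    intro v _ _ hv2 u hu hu2
    rcases Finset.mem_union.mp hu with h | h
    · exact hsep u h v hv2
    · exact absurd h hu2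
  have e1 : ({r} : Finset W) ∩ S2 = ∅ := by
    rw [Finset.singleton_inter_of_notMem hr2]
  have e2 : (S1 ∪ S2) ∩ S2 = S2 := Finset.inter_eq_right.mpr Finset.subset_union_right
  rw [e1, e2] at hR
  have := hR.empty_of_sub fun v hv => by
    rintro rfl; exact hr2 hv
  exact Finset.Nonempty.ne_empty h2 this

theorem one_cut {m : W → W → ℕ} (hl : ∀ u, m u u = 0) (hs : ∀ u v, m u v = m v u)
    {S1 S2 : Finset W} {a : W} (hI : S1 ∩ S2 = {a})
    (hsep : ∀ u ∈ S1, u ∉ S2 → ∀ v ∈ S2, v ∉ S1 → m u v = 0) :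
    Reducible m (S1 ∪ S2) ↔ Reducible m S1 ∧ Reducible m S2 := by
  have ha : a ∈ S1 ∩ S2 := by rw [hI]; exact Finset.mem_singleton_self a
  have ha1 := (Finset.mem_inter.mp ha).1
  have ha2 := (Finset.mem_inter.mp ha).2
  have hcap : ∀ v, v ∈ S1 → v ∈ S2 → v = a := fun v h1 h2 => by
    have : v ∈ S1 ∩ S2 := Finset.mem_inter.mpr ⟨h1, h2⟩
    rw [hI] at this; exact Finset.mem_singleton.mp this
  constructor
  · intro h
    have hE := h.any_root hl hs (Finset.mem_union_left S2 ha1)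
    constructor
    · have hR : Ext m {v | v ≠ a} ({a} ∩ S1) ((S1 ∪ S2) ∩ S1) := by
        refine hE.restrict S1 (fun _ _ _ _ _ _ _ => rfl) ?_ (fun _ _ _ _ => Iff.rfl)
        intro v _ hva hv1 u hu hu1
        rcases Finset.mem_union.mp hu with h | h
        · exact absurd h hu1
        · rw [hs]
          exact hsep v hv1 (fun h2 => hva (Finset.mem_singleton.mpr (hcap v hv1 h2))) u h hu1
      rw [Finset.singleton_inter_of_mem ha1,
        Finset.inter_eq_right.mpr Finset.subset_union_left] at hR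
      exact reducible_of_root hl hR
    · have hR : Ext m {v | v ≠ a} ({a} ∩ S2) ((S1 ∪ S2) ∩ S2) := by
        refine hE.restrict S2 (fun _ _ _ _ _ _ _ => rfl) ?_ (fun _ _ _ _ => Iff.rfl)
        intro v _ hva hv2 u hu hu2
        rcases Finset.mem_union.mp hu with h | h
        · exact hsep u h hu2 v hv2 (fun h1 => hva (Finset.mem_singleton.mpr (hcap v h1 hv2)))
        · exact absurd h hu2
      rw [Finset.singleton_inter_of_mem ha2,
        Finset.inter_eq_right.mpr Finset.subset_union_right] at hR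
      exact reducible_of_root hl hR
  · rintro ⟨h1, h2⟩
    have hE1 := h1.any_root hl hs ha1
    have hE2 := h2.any_root hl hs ha2
    have hF : Ext m {v | v ≠ a} ({a} ∪ S1) (S2 ∪ S1) := by
      refine hE2.frame S1 ?_ (fun _ _ _ _ _ => rfl) (fun _ _ _ => Iff.rfl) ?_
      · intro v hv hva hv1
        exact hva (Finset.mem_singleton.mpr (hcap v hv1 hv))
      · intro v hv hva u hu hua
        exact hsep u hu (fun h2 => hua (Finset.mem_singleton.mpr (hcap u hu h2))) v hv
          (fun h1 => hva (Finset.mem_singleton.mpr (hcap v h1 hv)))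
    have e1 : {a} ∪ S1 = S1 := by
      rw [Finset.union_eq_right]; simpa using ha1
    rw [e1, Finset.union_comm] at hF
    exact reducible_of_root hl (hE1.trans hF)

/-- one half of the decomposition along a 2-cut. -/
theorem two_half {m : W → W → ℕ} (hl : ∀ u, m u u = 0) (hs : ∀ u v, m u v = m v u)
    {S1 S2 Q : Finset W} {a b : W} {c : ℕ} (hab : a ≠ b) (ha1 : a ∈ S1) (hb1 : b ∈ S1)
    (hcap : ∀ v, v ∈ S1 → v ∈ S2 → v = a ∨ v = b)
    (hsep : ∀ u ∈ S1, u ∉ S2 → ∀ v ∈ S2, v ∉ S1 → m u v = 0)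
    (hQ : Ext m {v | v ≠ a} {a} Q) (hbQ : b ∉ Q)
    (hQS : Ext m {v | v ≠ a} (insert b Q) (S1 ∪ S2))
    (hodd : Odd (c + ∑ u ∈ (Q ∩ S1).erase a, m u b)) :
    Reducible (setAB m a b c) S1 := by
  have haQ : a ∈ Q := hQ.sub (Finset.mem_singleton_self a)
  have hQsub : Q ⊆ S1 ∪ S2 := (Finset.subset_insert b Q).trans hQS.sub
  have R1 : Ext (setAB m a b c) {v | v ≠ a} ({a} ∩ S1) (Q ∩ S1) := by
    refine hQ.restrict S1 ?_ ?_ (fun _ _ _ _ => Iff.rfl)
    · intro v hv hva _ u _ _
      exact setAB_of_ne (fun h => hva (Finset.mem_singleton.mpr h)) (by rintro rfl; exact hbQ hv)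
    · intro v hv hva hv1 u hu hu1
      have hu2 : u ∈ S2 := (Finset.mem_union.mp (hQsub hu)).resolve_left hu1
      rw [hs]
      refine hsep v hv1 (fun h2 => ?_) u hu2 hu1
      rcases hcap v hv1 h2 with h | h
      · exact hva (Finset.mem_singleton.mpr h)
      · subst h; exact hbQ hv
  rw [Finset.singleton_inter_of_mem ha1] at R1
  have R2 : Ext (setAB m a b c) {v | v ≠ a} {a} (insert b (Q ∩ S1)) := by
    refine Ext.cons _ b (fun h => hbQ (Finset.mem_inter.mp h).1) ?_ R1
    rw [sum_setAB hab (Finset.mem_inter.mpr ⟨haQ, ha1⟩)]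
    exact ⟨fun _ => hab.symm, fun _ => hodd⟩
  have R3 : Ext (setAB m a b c) {v | v ≠ a} ((insert b Q) ∩ S1) ((S1 ∪ S2) ∩ S1) := by
    refine hQS.restrict S1 ?_ ?_ (fun _ _ _ _ => Iff.rfl)
    · intro v _ hvQ _ u _ _
      exact setAB_of_ne (by rintro rfl; exact hvQ (Finset.mem_insert_of_mem haQ))
        (by rintro rfl; exact hvQ (Finset.mem_insert_self _ _))
    · intro v _ hvQ hv1 u hu hu1
      have hu2 : u ∈ S2 := (Finset.mem_union.mp hu).resolve_left hu1
      rw [hs]
      refine hsep v hv1 (fun h2 => ?_) u hu2 hu1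
      rcases hcap v hv1 h2 with h | h
      · subst h; exact hvQ (Finset.mem_insert_of_mem haQ)
      · subst h; exact hvQ (Finset.mem_insert_self _ _)
  rw [Finset.insert_inter_of_mem hb1, Finset.inter_eq_right.mpr Finset.subset_union_left] at R3
  exact reducible_of_root (setAB_loop hl hab) (R2.trans R3)

theorem two_cut {m : W → W → ℕ} (hl : ∀ u, m u u = 0) (hs : ∀ u v, m u v = m v u)
    {S1 S2 : Finset W} {a b : W} (hab : a ≠ b) (hI : S1 ∩ S2 = {a, b})
    (hsep : ∀ u ∈ S1, u ∉ S2 → ∀ v ∈ S2, v ∉ S1 → m u v = 0) :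
    Reducible m (S1 ∪ S2) ↔ ∃ c1 c2 : ℕ, c1 ≤ 1 ∧ c2 ≤ 1 ∧ Odd (c1 + c2 + m a b) ∧
      Reducible (setAB m a b c1) S1 ∧ Reducible (setAB m a b c2) S2 := by
  have ha : a ∈ S1 ∩ S2 := by rw [hI]; simp
  have hb : b ∈ S1 ∩ S2 := by rw [hI]; simp
  have ha1 := (Finset.mem_inter.mp ha).1
  have ha2 := (Finset.mem_inter.mp ha).2
  have hb1 := (Finset.mem_inter.mp hb).1
  have hb2 := (Finset.mem_inter.mp hb).2
  have hcap : ∀ v, v ∈ S1 → v ∈ S2 → v = a ∨ v = b := fun v h1 h2 => by
    have : v ∈ S1 ∩ S2 := Finset.mem_inter.mpr ⟨h1, h2⟩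
    rw [hI] at this; simpa using this
  have hcap' : ∀ v, v ∈ S2 → v ∈ S1 → v = a ∨ v = b := fun v h1 h2 => hcap v h2 h1
  have hsep' : ∀ u ∈ S2, u ∉ S1 → ∀ v ∈ S1, v ∉ S2 → m u v = 0 := fun u hu hu1 v hv hv2 => by
    rw [hs]; exact hsep v hv hv2 u hu hu1
  -- splitting of the sum at `b`
  have hsum : ∀ Q1 Q2 : Finset W, Q1 ⊆ S1 → Q2 ⊆ S2 → b ∉ Q1 → b ∉ Q2 → a ∈ Q1 →
      ∑ u ∈ Q1 ∪ Q2, m u b = m a b + ∑ u ∈ Q1.erase a, m u b + ∑ u ∈ Q2.erase a, m u b := by
    intro Q1 Q2 hQ1 hQ2 hbQ1 hbQ2 haQ1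
    have haU : a ∈ Q1 ∪ Q2 := Finset.mem_union_left _ haQ1
    rw [← Finset.add_sum_erase _ _ haU, Finset.erase_union_distrib, add_assoc]
    congr 1
    apply Finset.sum_union
    rw [Finset.disjoint_left]
    intro u hu1 hu2
    rw [Finset.mem_erase] at hu1 hu2
    rcases hcap u (hQ1 hu1.2) (hQ2 hu2.2) with h | h
    · exact hu1.1 h
    · subst h; exact hbQ1 hu1.2
  constructor
  · intro h
    have hE := h.any_root hl hs (Finset.mem_union_left S2 ha1)
    obtain ⟨Q, hQ, hbQ, hpar, hQS⟩ := hE.split (Finset.mem_union_left S2 hb1)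
      (by rw [Finset.mem_singleton]; exact hab.symm)
    have haQ : a ∈ Q := hQ.sub (Finset.mem_singleton_self a)
    have hQsub : Q ⊆ S1 ∪ S2 := (Finset.subset_insert b Q).trans hQS.sub
    have hodd : Odd (∑ u ∈ Q, m u b) := hpar.mpr hab.symm
    have hQQ : Q = (Q ∩ S1) ∪ (Q ∩ S2) := by
      rw [← Finset.inter_union_distrib_left]
      exact (Finset.inter_eq_left.mpr hQsub).symm
    have hs1 := hsum (Q ∩ S1) (Q ∩ S2) Finset.inter_subset_right Finset.inter_subset_right
      (fun h => hbQ (Finset.mem_inter.mp h).1) (fun h => hbQ (Finset.mem_inter.mp h).1)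
      (Finset.mem_inter.mpr ⟨haQ, ha1⟩)
    rw [← hQQ] at hs1
    rw [hs1] at hodd
    set x1 := ∑ u ∈ (Q ∩ S1).erase a, m u b with hx1
    set x2 := ∑ u ∈ (Q ∩ S2).erase a, m u b with hx2
    refine ⟨(x1 + 1) % 2, (x2 + 1) % 2, by omega, by omega, ?_, ?_, ?_⟩
    · rw [Nat.odd_iff] at hodd ⊢; omega
    · refine two_half hl hs hab ha1 hb1 hcap hsep hQ hbQ hQS ?_
      rw [← hx1, Nat.odd_iff]; omega
    · rw [Finset.union_comm] at hQS
      refine two_half hl hs hab ha2 hb2 hcap' hsep' hQ hbQ hQS ?_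
      rw [← hx2, Nat.odd_iff]; omega
  · rintro ⟨c1, c2, _, _, hc, h1, h2⟩
    have hE1 := h1.any_root (setAB_loop hl hab) (setAB_symm hs) ha1
    have hE2 := h2.any_root (setAB_loop hl hab) (setAB_symm hs) ha2
    obtain ⟨Q1, hQ1, hbQ1, hpar1, hQS1⟩ := hE1.split hb1
      (by rw [Finset.mem_singleton]; exact hab.symm)
    obtain ⟨Q2, hQ2, hbQ2, hpar2, hQS2⟩ := hE2.split hb2
      (by rw [Finset.mem_singleton]; exact hab.symm)
    have haQ1 : a ∈ Q1 := hQ1.sub (Finset.mem_singleton_self a)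
    have haQ2 : a ∈ Q2 := hQ2.sub (Finset.mem_singleton_self a)
    have hQ1S : Q1 ⊆ S1 := (Finset.subset_insert b Q1).trans hQS1.sub
    have hQ2S : Q2 ⊆ S2 := (Finset.subset_insert b Q2).trans hQS2.sub
    have hodd1 : Odd (∑ u ∈ Q1, setAB m a b c1 u b) := hpar1.mpr hab.symm
    have hodd2 : Odd (∑ u ∈ Q2, setAB m a b c2 u b) := hpar2.mpr hab.symm
    rw [sum_setAB hab haQ1] at hodd1
    rw [sum_setAB hab haQ2] at hodd2
    have E1 : Ext m {v | v ≠ a} ({a} ∪ {a}) (Q1 ∪ {a}) := by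
      refine hQ1.frame {a} (fun v _ hva => hva) ?_ (fun _ _ _ => Iff.rfl) ?_
      · intro v hv hva u _
        exact (setAB_of_ne (fun h => hva (Finset.mem_singleton.mpr h))
          (by rintro rfl; exact hbQ1 hv)).symm
      · intro v _ _ u hu hu'; exact absurd hu hu'
    rw [Finset.union_idempotent, Finset.union_eq_left.mpr (by simpa using haQ1)] at E1
    have E2 : Ext m {v | v ≠ a} ({a} ∪ Q1) (Q2 ∪ Q1) := by
      refine hQ2.frame Q1 ?_ ?_ (fun _ _ _ => Iff.rfl) ?_
      · intro v hv hva hv1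
        rcases hcap v (hQ1S hv1) (hQ2S hv) with h | h
        · exact hva (Finset.mem_singleton.mpr h)
        · subst h; exact hbQ2 hv
      · intro v hv hva u _
        exact (setAB_of_ne (fun h => hva (Finset.mem_singleton.mpr h))
          (by rintro rfl; exact hbQ2 hv)).symm
      · intro v hv hva u hu hua
        refine hsep u (hQ1S hu) (fun h2 => ?_) v (hQ2S hv) (fun h1 => ?_)
        · rcases hcap u (hQ1S hu) h2 with h | h
          · exact hua (Finset.mem_singleton.mpr h)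
          · subst h; exact hbQ1 hu
        · rcases hcap v h1 (hQ2S hv) with h | h
          · exact hva (Finset.mem_singleton.mpr h)
          · subst h; exact hbQ2 hv
    rw [Finset.union_eq_right.mpr (show ({a} : Finset W) ⊆ Q1 by simpa using haQ1)] at E2
    have E3 : Ext m {v | v ≠ a} (Q2 ∪ Q1) (insert b (Q2 ∪ Q1)) := by
      refine Ext.cons _ b ?_ ?_ Ext.refl
      · rw [Finset.mem_union, not_or]; exact ⟨hbQ2, hbQ1⟩
      · rw [Finset.union_comm, hsum Q1 Q2 hQ1S hQ2S hbQ1 hbQ2 haQ1]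
        refine ⟨fun _ => hab.symm, fun _ => ?_⟩
        rw [Nat.odd_iff] at hodd1 hodd2 hc ⊢; omega
    have E4 : Ext m {v | v ≠ a} (insert b Q1 ∪ Q2) (S1 ∪ Q2) := by
      refine hQS1.frame Q2 ?_ ?_ (fun _ _ _ => Iff.rfl) ?_
      · intro v hv hvQ hv2
        rcases hcap v hv (hQ2S hv2) with h | h
        · subst h; exact hvQ (Finset.mem_insert_of_mem haQ1)
        · subst h; exact hvQ (Finset.mem_insert_self _ _)
      · intro v _ hvQ u _
        exact (setAB_of_ne (by rintro rfl; exact hvQ (Finset.mem_insert_of_mem haQ1))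
          (by rintro rfl; exact hvQ (Finset.mem_insert_self _ _))).symm
      · intro v hv hvQ u hu huQ
        refine hsep' u (hQ2S hu) (fun h1 => ?_) v hv (fun h2 => ?_)
        · rcases hcap u h1 (hQ2S hu) with h | h
          · subst h; exact huQ (Finset.mem_insert_of_mem haQ1)
          · subst h; exact huQ (Finset.mem_insert_self _ _)
        · rcases hcap v hv h2 with h | h
          · subst h; exact hvQ (Finset.mem_insert_of_mem haQ1)
          · subst h; exact hvQ (Finset.mem_insert_self _ _)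
    have e4 : insert b Q1 ∪ Q2 = insert b (Q2 ∪ Q1) := by
      rw [Finset.insert_union, Finset.union_comm]
    rw [e4] at E4
    have E5 : Ext m {v | v ≠ a} (insert b Q2 ∪ S1) (S2 ∪ S1) := by
      refine hQS2.frame S1 ?_ ?_ (fun _ _ _ => Iff.rfl) ?_
      · intro v hv hvQ hv1
        rcases hcap v hv1 hv with h | h
        · subst h; exact hvQ (Finset.mem_insert_of_mem haQ2)
        · subst h; exact hvQ (Finset.mem_insert_self _ _)
      · intro v _ hvQ u _
        exact (setAB_of_ne (by rintro rfl; exact hvQ (Finset.mem_insert_of_mem haQ2))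
          (by rintro rfl; exact hvQ (Finset.mem_insert_self _ _))).symm
      · intro v hv hvQ u hu huQ
        refine hsep u hu (fun h2 => ?_) v hv (fun h1 => ?_)
        · rcases hcap u hu h2 with h | h
          · subst h; exact huQ (Finset.mem_insert_of_mem haQ2)
          · subst h; exact huQ (Finset.mem_insert_self _ _)
        · rcases hcap v h1 hv with h | h
          · subst h; exact hvQ (Finset.mem_insert_of_mem haQ2)
          · subst h; exact hvQ (Finset.mem_insert_self _ _)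
    have e5 : insert b Q2 ∪ S1 = S1 ∪ Q2 := by
      rw [Finset.insert_union, Finset.union_comm Q2 S1]
      exact Finset.insert_eq_of_mem (Finset.mem_union_left _ hb1)
    rw [e5, Finset.union_comm S2 S1] at E5
    exact reducible_of_root hl ((((E1.trans E2).trans E3).trans E4).trans E5)

/-- number of edges and number of vertices. -/
theorem reducible_parity {m : W → W → ℕ} (hl : ∀ u, m u u = 0) (hs : ∀ u v, m u v = m v u)
    {S : Finset W} (h : Reducible m S) :
    ∃ k, ∑ u ∈ S, ∑ v ∈ S, m u v = 2 * k ∧ Odd (k + S.card) := by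
  induction h with
  | single r => exact ⟨0, by simp [hl], by simp⟩
  | step S v hv hodd h ih =>
    obtain ⟨k, hk, hko⟩ := ih
    refine ⟨k + ∑ u ∈ S, m u v, ?_, ?_⟩
    · have e1 : ∀ u, ∑ w ∈ S, m u w = m u v + ∑ w ∈ S.erase v, m u w := fun u =>
        (Finset.add_sum_erase S _ hv).symm
      rw [Finset.sum_congr rfl fun u _ => e1 u, Finset.sum_add_distrib]
      rw [← Finset.add_sum_erase S (fun u => ∑ w ∈ S.erase v, m u w) hv, hk]
      have e2 : ∑ w ∈ S.erase v, m v w = ∑ u ∈ S, m u v := by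
        rw [← Finset.add_sum_erase S (fun u => m u v) hv, hl, zero_add]
        exact Finset.sum_congr rfl fun u _ => hs v u
      rw [e2]; ring
    · have hcard : S.card = (S.erase v).card + 1 := by
        rw [Finset.card_erase_of_mem hv]
        have : 0 < S.card := Finset.card_pos.mpr ⟨v, hv⟩
        omega
      rw [hcard]
      rw [Nat.odd_iff] at hodd hko ⊢; omega

end Pool.Agent.H796R3.AO
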