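import Mathlib

set_option autoImplicit false

/-!
# Acyclic `T`-odd orientations: definitions
-/

namespace Pool.Agent.H796R3.AO

/-- A loopless undirected multigraph on the vertex set `W`; `m u v` is the number of (parallel)
edges joining `u` and `v`. -/
structure MGraph (W : Type) where
  m : W → W → ℕ
  symm : ∀ u v, m u v = m v u
  loopless : ∀ u, m u u = 0

/-- `d` is an acyclic `T`-odd orientation of `G`: of the `m u v` edges joining `u` and `v`,
`d u v` are directed from `u` to `v` and `d v u` from `v` to `u`; there is no directed cycle; and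
the in-degree `∑ u, d u v` of `v` is odd exactly when `v ∈ T`. -/
structure AcyclicTOdd {W : Type} [Fintype W] (G : MGraph W) (T : Set W) (d : W → W → ℕ) :
    Prop where
  orient : ∀ u v, d u v + d v u = G.m u v
  acyclic : ∀ v, ¬ Relation.TransGen (fun a b => 0 < d a b) v v
  odd : ∀ v, Odd (∑ u, d u v) ↔ v ∈ T

/-- `G` has an acyclic `T`-odd orientation. -/
def HasAcyclicTOdd {W : Type} [Fintype W] (G : MGraph W) (T : Set W) : Prop :=
  ∃ d : W → W → ℕ, AcyclicTOdd G T d

/-- A loopless multigraph with vertex set `V` and edge set `E`: the edge `e` joins the two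
elements of `ends e`. -/
structure Root (V E : Type) where
  ends : E → Finset V
  card_ends : ∀ e, (ends e).card = 2

variable {V E : Type} [DecidableEq V]

/-- Two edges of `Γ` are adjacent when they share exactly one endpoint. For a simple `Γ` this is
the line graph of `Γ`. -/
def Root.line (Γ : Root V E) : SimpleGraph E where
  Adj e f := (Γ.ends e ∩ Γ.ends f).card = 1
  symm := ⟨fun e f h => by rw [Finset.inter_comm]; exact h⟩
  loopless := ⟨fun e h => by
    rw [Finset.inter_self, Γ.card_ends] at h; exact absurd h (by norm_num)⟩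

/-- the degree of a vertex of `Γ`. -/
def Root.deg [Fintype E] (Γ : Root V E) (v : V) : ℕ :=
  (Finset.univ.filter fun e => v ∈ Γ.ends e).card

/-- The sign `+1` for an ingoing half-edge (`true`) and `-1` for an outgoing one. -/
def sgn (b : Bool) : ℤ := if b then 1 else -1

/-- `σ` labels each half-edge `(e, v)`, `v ∈ ends e`, by `true` (in) or `false` (out) such
that the two halves of `e` have different labels exactly when `e ∈ T`, and at each vertex the
number of in-labels minus the number of out-labels is `0` or `1`. -/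
structure Balanced [Fintype E] (Γ : Root V E) (T : Set E) (σ : E → V → Bool) : Prop where
  edge : ∀ e, ∀ v ∈ Γ.ends e, ∀ w ∈ Γ.ends e, v ≠ w → (σ e v ≠ σ e w ↔ e ∈ T)
  vert : ∀ v, (∑ e with v ∈ Γ.ends e, sgn (σ e v)) = 0 ∨ (∑ e with v ∈ Γ.ends e, sgn (σ e v)) = 1

/-- Vertices of the auxiliary graph: half-edges of `Γ`; at each vertex `v` of `Γ`, `⌊d(v)/2⌋`
core vertices; one middle vertex for each edge in `T`. -/
abbrev Root.AuxV [Fintype E] (Γ : Root V E) (T : Set E) : Type :=
  {p : E × V // p.2 ∈ Γ.ends p.1} ⊕ (Σ v : V, Fin (Γ.deg v / 2)) ⊕ {e : E // e ∈ T}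

/-- Adjacency of the auxiliary graph (before symmetrisation): the half-edge `(e, v)` is adjacent
to all core vertices at `v`; to the middle vertex of `e` if `e ∈ T`; and to the other half of `e`
if `e ∉ T`. -/
def Root.auxRel [Fintype E] (Γ : Root V E) (T : Set E) : Γ.AuxV T → Γ.AuxV T → Prop
  | .inl p, .inl q => p.1.1 = q.1.1 ∧ p.1.2 ≠ q.1.2 ∧ p.1.1 ∉ T
  | .inl p, .inr (.inl c) => p.1.2 = c.1
  | .inl p, .inr (.inr e) => p.1.1 = e.1
  | _, _ => False

/-- The auxiliary graph. -/
def Root.aux [Fintype E] (Γ : Root V E) (T : Set E) : SimpleGraph (Γ.AuxV T) :=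
  SimpleGraph.fromRel (Γ.auxRel T)

end Pool.Agent.H796R3.AO
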