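import Pool.Agent.H796R3.AO.Sched

set_option autoImplicit false

/-!
# Vertex orders of the line graph and balanced labellings
-/

namespace Pool.Agent.H796R3.AO

open Finset

variable {V E : Type} [DecidableEq V]

theorem card_inter_odd (Γ : Root V E) (u : E) {e : E} {a b : V} (hab : a ≠ b)
    (he : Γ.ends e = {a, b}) (x : V → Bool) :
    Odd (Γ.ends u ∩ Γ.ends e).card ↔
      (xor (tog Γ x u a) (tog Γ x u b)) ≠ (xor (x a) (x b)) := by
  rw [he]
  unfold tog
  by_cases ha : a ∈ Γ.ends u <;> by_cases hb : b ∈ Γ.ends u
  · have : Γ.ends u ∩ {a, b} = {a, b} := by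
      apply Finset.inter_eq_right.mpr
      intro v hv
      rcases Finset.mem_insert.mp hv with rfl | hv
      · exact ha
      · rw [Finset.mem_singleton] at hv; rw [hv]; exact hb
    rw [this, Finset.card_pair hab, if_pos ha, if_pos hb]
    constructor
    · intro h; exact absurd h (by decide)
    · intro h; exfalso; apply h; cases x a <;> cases x b <;> rfl
  · have : Γ.ends u ∩ {a, b} = {a} := by
      ext v
      simp only [Finset.mem_inter, Finset.mem_insert, Finset.mem_singleton]
      constructor
      · rintro ⟨h1, rfl | rfl⟩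
        · rfl
        · exact absurd h1 hb
      · rintro rfl; exact ⟨ha, Or.inl rfl⟩
    rw [this, Finset.card_singleton, if_pos ha, if_neg hb]
    constructor
    · intro _; cases x a <;> cases x b <;> simp
    · intro _; decide
  · have : Γ.ends u ∩ {a, b} = {b} := by
      ext v
      simp only [Finset.mem_inter, Finset.mem_insert, Finset.mem_singleton]
      constructor
      · rintro ⟨h1, rfl | rfl⟩
        · exact absurd h1 ha
        · rfl
      · rintro rfl; exact ⟨hb, Or.inr rfl⟩
    rw [this, Finset.card_singleton, if_neg ha, if_pos hb]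
    constructor
    · intro _; cases x a <;> cases x b <;> simp
    · intro _; decide
  · have : Γ.ends u ∩ {a, b} = ∅ := by
      ext v
      simp only [Finset.mem_inter, Finset.mem_insert, Finset.mem_singleton, Finset.notMem_empty,
        iff_false]
      rintro ⟨h1, rfl | rfl⟩
      · exact ha h1
      · exact hb h1
    rw [this, Finset.card_empty, if_neg ha, if_neg hb]
    constructor
    · intro h; exact absurd h (by decide)
    · intro h; exact absurd rfl h

theorem parity {Γ : Root V E} {G : MGraph E}
    (hG : ∀ e f, e ≠ f → (Odd (G.m e f) ↔ Odd (Γ.ends e ∩ Γ.ends f).card))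
    {e : E} {a b : V} (hab : a ≠ b) (he : Γ.ends e = {a, b}) (l : List E) :
    ∀ x : V → Bool, e ∉ l → (Odd ((l.map (fun u => G.m u e)).sum) ↔
      (xor (fin Γ x l a) (fin Γ x l b)) ≠ (xor (x a) (x b))) := by
  induction l with
  | nil => intro x _; simp [fin]
  | cons u l ih =>
    intro x hx
    rw [List.mem_cons, not_or] at hx
    have h1 := ih (tog Γ x u) hx.2
    have h2 : Odd (G.m u e) ↔ _ := (hG u e (Ne.symm hx.1)).trans (card_inter_odd Γ u hab he x)
    rw [List.map_cons, List.sum_cons, Nat.odd_add, h2, ← Nat.not_odd_iff_even, h1]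
    simp only [fin]
    generalize (xor (tog Γ x u a) (tog Γ x u b)) = p
    generalize (xor (x a) (x b)) = q
    generalize (xor (fin Γ (tog Γ x u) l a) (fin Γ (tog Γ x u) l b)) = r
    cases p <;> cases q <;> cases r <;> simp

theorem exists_label [DecidableEq E] (Γ : Root V E) (l : List E) :
    ∀ x : V → Bool, l.Nodup → ∃ σ : E → V → Bool, RunFrom Γ σ x l := by
  induction l with
  | nil => intro x _; exact ⟨fun _ _ => false, trivial⟩
  | cons e l ih =>
    intro x hl
    rw [List.nodup_cons] at hl
    obtain ⟨σ, hσ⟩ := ih (tog Γ x e) hl.2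
    refine ⟨fun f v => if f = e then !x v else σ f v, fun v _ => if_pos rfl, hσ.congr ?_⟩
    intro f hf v _
    have : f ≠ e := by rintro rfl; exact hl.1 hf
    rw [if_neg this]

theorem exists_first {W : Type} (p : W → Prop) (l : List W) (h : ∃ a ∈ l, p a) :
    ∃ l1 f l2, l = l1 ++ f :: l2 ∧ p f ∧ ∀ u ∈ l1, ¬ p u := by
  induction l with
  | nil => obtain ⟨a, ha, _⟩ := h; exact absurd ha List.not_mem_nil
  | cons b l ih =>
    by_cases hb : p b
    · exact ⟨[], b, l, rfl, hb, by simp⟩
    · have : ∃ a ∈ l, p a := by
        obtain ⟨a, ha, hpa⟩ := h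
        rcases List.mem_cons.mp ha with rfl | ha
        · exact absurd hpa hb
        · exact ⟨a, ha, hpa⟩
      obtain ⟨l1, f, l2, rfl, h1, h2⟩ := ih this
      refine ⟨b :: l1, f, l2, rfl, h1, ?_⟩
      intro u hu
      rcases List.mem_cons.mp hu with rfl | hu
      · exact hb
      · exact h2 u hu

theorem order_iff [Fintype V] [Fintype E] (Γ : Root V E) (G : MGraph E)
    (hG : ∀ e f, e ≠ f → (Odd (G.m e f) ↔ Odd (Γ.ends e ∩ Γ.ends f).card)) (T : Set E) :
    (∃ l : List E, l.Nodup ∧ (∀ w, w ∈ l) ∧
        ∀ (l1 : List E) (e : E) (l2 : List E), l = l1 ++ e :: l2 →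
          (Odd ((l1.map (fun u => G.m u e)).sum) ↔ e ∈ T)) ↔
      (∀ e, ∃ f, f ∉ T ∧ Γ.line.Reachable e f) ∧ ∃ σ : E → V → Bool, Balanced Γ T σ := by
  classical
  constructor
  · rintro ⟨l, hl, hall, hpar⟩
    refine ⟨?_, ?_⟩
    · intro e
      obtain ⟨l1, f, l2, hsp, hf, hfirst⟩ := exists_first (fun u => Γ.line.Reachable e u) l
        ⟨e, hall e, SimpleGraph.Reachable.refl e⟩
      refine ⟨f, ?_, hf⟩
      rw [← hpar l1 f l2 hsp, Nat.not_odd_iff_even]
      have hev : ∀ u ∈ l1, Even (G.m u f) := by
        intro u hu
        have hne : u ≠ f := by rintro rfl; exact hfirst u hu hf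
        rw [← Nat.not_odd_iff_even, hG u f hne]
        intro hodd
        have hle : (Γ.ends u ∩ Γ.ends f).card ≤ 2 := by
          calc (Γ.ends u ∩ Γ.ends f).card ≤ (Γ.ends u).card :=
                Finset.card_le_card Finset.inter_subset_left
            _ = 2 := Γ.card_ends u
        have h1 : (Γ.ends u ∩ Γ.ends f).card = 1 := by
          obtain ⟨k, hk⟩ := hodd; omega
        have hadj : Γ.line.Adj f u := by
          show (Γ.ends f ∩ Γ.ends u).card = 1
          rw [Finset.inter_comm]; exact h1
        exact hfirst u hu (hf.trans hadj.reachable)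
      clear hsp hfirst
      induction l1 with
      | nil => simp
      | cons u l1 ih =>
        rw [List.map_cons, List.sum_cons]
        exact (hev u List.mem_cons_self).add (ih fun w hw => hev w (List.mem_cons_of_mem _ hw))
    · obtain ⟨σ, hσ⟩ := exists_label Γ l (fun _ => false) hl
      refine ⟨σ, ?_, ?_⟩
      · intro e v hv w hw hvw
        obtain ⟨l1, l2, hsp⟩ := List.append_of_mem (hall e)
        have hel : e ∉ l1 := by
          rw [hsp, List.nodup_append] at hl
          intro h
          exact hl.2.2 e h e List.mem_cons_self rfl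
        have he : Γ.ends e = {v, w} := by
          symm
          apply Finset.eq_of_subset_of_card_le
          · intro u hu
            rcases Finset.mem_insert.mp hu with rfl | hu
            · exact hv
            · rw [Finset.mem_singleton] at hu; rw [hu]; exact hw
          · rw [Γ.card_ends, Finset.card_pair hvw]
        rw [← hpar l1 e l2 hsp, parity hG hvw he l1 (fun _ => false) hel]
        rw [hsp, runFrom_append] at hσ
        have hr := hσ.2.1
        rw [hr v hv, hr w hw]
        generalize fin Γ (fun _ => false) l1 v = p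
        generalize fin Γ (fun _ => false) l1 w = q
        cases p <;> cases q <;> simp
      · intro v
        rw [← net_eq_sum]
        have h1 := tok_fin hσ v
        rw [list_sum_eq hl] at h1
        have h2 : l.toFinset = Finset.univ := by
          ext e; simp [hall e]
        rw [h2] at h1
        have h4 : tok false = 0 := rfl
        simp only [h4, zero_add] at h1
        rw [← h1]
        unfold tok
        cases fin Γ (fun _ => false) l v <;> simp
  · rintro ⟨hc, σ, hσ⟩
    obtain ⟨σ', l, hσ', hl, hall, hr⟩ := exists_run Γ T hc _ σ [] hσ List.nodup_nil trivial rfl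
    refine ⟨l, hl, hall, ?_⟩
    intro l1 e l2 hsp
    have hel : e ∉ l1 := by
      rw [hsp, List.nodup_append] at hl
      intro h
      exact hl.2.2 e h e List.mem_cons_self rfl
    obtain ⟨a, b, hab, he⟩ := ends_pair Γ e
    rw [parity hG hab he l1 (fun _ => false) hel]
    rw [hsp, runFrom_append] at hr
    have hr1 := hr.2.1
    rw [← hσ'.edge e a (by simp [he]) b (by simp [he]) hab, hr1 a (by simp [he]),
      hr1 b (by simp [he])]
    generalize fin Γ (fun _ => false) l1 a = p
    generalize fin Γ (fun _ => false) l1 b = q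
    cases p <;> cases q <;> simp

end Pool.Agent.H796R3.AO
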