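import Pool.Agent.H796R3.AO.Stmts

set_option autoImplicit false

/-!
# Building up vertex sets with prescribed parities
-/

namespace Pool.Agent.H796R3.AO

open Finset

variable {W : Type} [DecidableEq W]

/-- `S` is reducible: it can be reduced to a single vertex by successively deleting vertices of
odd degree (the degree being taken in the graph induced on the current set). -/
inductive Reducible (m : W → W → ℕ) : Finset W → Prop
  | single (r : W) : Reducible m {r}
  | step (S : Finset W) (v : W) (hv : v ∈ S) (hodd : Odd (∑ u ∈ S, m u v))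
      (h : Reducible m (S.erase v)) : Reducible m S

/-- `S` can be built from `P` by adding one vertex after the other, with an odd number of edges to
the current set exactly for the vertices in `T`. -/
inductive Ext (m : W → W → ℕ) (T : Set W) (P : Finset W) : Finset W → Prop
  | refl : Ext m T P P
  | cons (S : Finset W) (v : W) (hv : v ∉ S) (hp : Odd (∑ u ∈ S, m u v) ↔ v ∈ T)
      (h : Ext m T P S) : Ext m T P (insert v S)

theorem Ext.trans {m : W → W → ℕ} {T : Set W} {P Q S : Finset W} (h1 : Ext m T P Q)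
    (h2 : Ext m T Q S) : Ext m T P S := by
  induction h2 with
  | refl => exact h1
  | cons S v hv hp _ ih => exact Ext.cons S v hv hp ih

theorem Ext.sub {m : W → W → ℕ} {T : Set W} {P S : Finset W} (h : Ext m T P S) : P ⊆ S := by
  induction h with
  | refl => exact Finset.Subset.refl _
  | cons S v hv hp _ ih => exact ih.trans (Finset.subset_insert v S)

/-- transfer along a frame: `X` is added to all sets. -/
theorem Ext.frame {m m' : W → W → ℕ} {T T' : Set W} {P S : Finset W} (X : Finset W)
    (h : Ext m T P S) (hX : ∀ v ∈ S, v ∉ P → v ∉ X)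
    (hm : ∀ v ∈ S, v ∉ P → ∀ u ∈ S, m' u v = m u v)
    (hT : ∀ v ∈ S, v ∉ P → (v ∈ T ↔ v ∈ T'))
    (h1 : ∀ v ∈ S, v ∉ P → ∀ u ∈ X, u ∉ P → m' u v = 0) :
    Ext m' T' (P ∪ X) (S ∪ X) := by
  induction h with
  | refl => exact Ext.refl
  | cons S v hv hp hE ih =>
    have hPS : P ⊆ S := hE.sub
    have hvP : v ∉ P := fun h => hv (hPS h)
    have hvI : v ∈ insert v S := Finset.mem_insert_self v S
    rw [Finset.insert_union]
    refine Ext.cons _ v ?_ ?_ (ih ?_ ?_ ?_ ?_)
    · rw [Finset.mem_union]; rintro (h | h)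
      · exact hv h
      · exact hX v hvI hvP h
    · have hsum : ∑ u ∈ S ∪ X, m' u v = ∑ u ∈ S, m u v := by
        have e1 : S ∪ X = S ∪ (X \ S) := by rw [Finset.union_sdiff_self_eq_union]
        rw [e1, Finset.sum_union Finset.disjoint_sdiff]
        have e2 : ∑ u ∈ X \ S, m' u v = 0 := by
          apply Finset.sum_eq_zero
          intro u hu
          rw [Finset.mem_sdiff] at hu
          exact h1 v hvI hvP u hu.1 (fun h => hu.2 (hPS h))
        rw [e2, add_zero]
        exact Finset.sum_congr rfl fun u hu => hm v hvI hvP u (Finset.mem_insert_of_mem hu)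
      rw [hsum, hp, hT v hvI hvP]
    · intro w hw hwP; exact hX w (Finset.mem_insert_of_mem hw) hwP
    · intro w hw hwP u hu
      exact hm w (Finset.mem_insert_of_mem hw) hwP u (Finset.mem_insert_of_mem hu)
    · intro w hw hwP; exact hT w (Finset.mem_insert_of_mem hw) hwP
    · intro w hw hwP u hu huP
      exact h1 w (Finset.mem_insert_of_mem hw) hwP u hu huP

/-- restriction to a set `A`. -/
theorem Ext.restrict {m m' : W → W → ℕ} {T T' : Set W} {P S : Finset W} (A : Finset W)
    (h : Ext m T P S)
    (hm : ∀ v ∈ S, v ∉ P → v ∈ A → ∀ u ∈ S, u ∈ A → m' u v = m u v)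
    (h0 : ∀ v ∈ S, v ∉ P → v ∈ A → ∀ u ∈ S, u ∉ A → m u v = 0)
    (hT : ∀ v ∈ S, v ∉ P → v ∈ A → (v ∈ T ↔ v ∈ T')) :
    Ext m' T' (P ∩ A) (S ∩ A) := by
  induction h with
  | refl => exact Ext.refl
  | cons S v hv hp hE ih =>
    have hPS : P ⊆ S := hE.sub
    have hvP : v ∉ P := fun h => hv (hPS h)
    have hvI : v ∈ insert v S := Finset.mem_insert_self v S
    have ih' : Ext m' T' (P ∩ A) (S ∩ A) := ih
      (fun w hw hwP hwA u hu huA => hm w (Finset.mem_insert_of_mem hw) hwP hwA u
        (Finset.mem_insert_of_mem hu) huA)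
      (fun w hw hwP hwA u hu huA => h0 w (Finset.mem_insert_of_mem hw) hwP hwA u
        (Finset.mem_insert_of_mem hu) huA)
      (fun w hw hwP hwA => hT w (Finset.mem_insert_of_mem hw) hwP hwA)
    by_cases hvA : v ∈ A
    · rw [Finset.insert_inter_of_mem hvA]
      refine Ext.cons _ v ?_ ?_ ih'
      · rw [Finset.mem_inter]; exact fun h => hv h.1
      · have hsum : ∑ u ∈ S ∩ A, m' u v = ∑ u ∈ S, m u v := by
          rw [← Finset.sum_inter_add_sum_sdiff S A (fun u => m u v)]
          have e2 : ∑ u ∈ S \ A, m u v = 0 := by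
            apply Finset.sum_eq_zero
            intro u hu
            rw [Finset.mem_sdiff] at hu
            exact h0 v hvI hvP hvA u (Finset.mem_insert_of_mem hu.1) hu.2
          rw [e2, add_zero]
          refine Finset.sum_congr rfl fun u hu => ?_
          rw [Finset.mem_inter] at hu
          exact hm v hvI hvP hvA u (Finset.mem_insert_of_mem hu.1) hu.2
        rw [hsum, hp, hT v hvI hvP hvA]
    · rw [Finset.insert_inter_of_notMem hvA]
      exact ih'

/-- splitting at the moment where `b` is added. -/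
theorem Ext.split {m : W → W → ℕ} {T : Set W} {P S : Finset W} (h : Ext m T P S) {b : W}
    (hbS : b ∈ S) (hbP : b ∉ P) :
    ∃ Q, Ext m T P Q ∧ b ∉ Q ∧ (Odd (∑ u ∈ Q, m u b) ↔ b ∈ T) ∧ Ext m T (insert b Q) S := by
  induction h with
  | refl => exact absurd hbS hbP
  | cons S v hv hp hE ih =>
    by_cases hb : b ∈ S
    · obtain ⟨Q, h1, h2, h3, h4⟩ := ih hb
      exact ⟨Q, h1, h2, h3, Ext.cons S v hv hp h4⟩
    · have : b = v := by
        rcases Finset.mem_insert.mp hbS with h | h
        · exact h
        · exact absurd h hb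
      subst this
      exact ⟨S, hE, hv, hp, Ext.refl⟩

theorem Ext.empty_of_sub {m : W → W → ℕ} {T : Set W} {S : Finset W} (h : Ext m T ∅ S)
    (hS : ∀ v ∈ S, v ∈ T) : S = ∅ := by
  induction h with
  | refl => rfl
  | cons S v hv hp hE ih =>
    exfalso
    have h1 := ih fun w hw => hS w (Finset.mem_insert_of_mem hw)
    subst h1
    have h2 := hp.mpr (hS v (Finset.mem_insert_self v _))
    simp at h2

/-- the first vertex. -/
theorem Ext.root {m : W → W → ℕ} {S : Finset W} {a : W} (ha : a ∈ S)
    (h : Ext m {v | v ≠ a} ∅ S) : Ext m {v | v ≠ a} {a} S := by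
  obtain ⟨Q, h1, h2, _, h4⟩ := h.split ha (Finset.notMem_empty a)
  have : Q = ∅ := h1.empty_of_sub fun v hv => by
    rintro rfl; exact h2 hv
  subst this
  exact h4

theorem Ext.of_root {m : W → W → ℕ} {S : Finset W} {a : W}
    (h : Ext m {v | v ≠ a} {a} S) : Ext m {v | v ≠ a} ∅ S := by
  have : Ext m {v | v ≠ a} ∅ (insert a ∅) :=
    Ext.cons ∅ a (Finset.notMem_empty a) (by simp) Ext.refl
  exact this.trans h

theorem sum_self {m : W → W → ℕ} (hl : ∀ u, m u u = 0) (S : Finset W) {v : W} (hv : v ∉ S) :
    ∑ u ∈ insert v S, m u v = ∑ u ∈ S, m u v := by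
  rw [Finset.sum_insert hv, hl, zero_add]

theorem reducible_iff {m : W → W → ℕ} (hl : ∀ u, m u u = 0) (S : Finset W) :
    Reducible m S ↔ ∃ r ∈ S, Ext m {v | v ≠ r} ∅ S := by
  constructor
  · intro h
    induction h with
    | single r =>
      exact ⟨r, Finset.mem_singleton_self r, Ext.of_root Ext.refl⟩
    | step S v hv hodd h ih =>
      obtain ⟨r, hr, hE⟩ := ih
      refine ⟨r, Finset.mem_of_mem_erase hr, ?_⟩
      have h1 : v ∉ S.erase v := Finset.notMem_erase v S
      rw [← Finset.insert_erase hv]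
      refine Ext.cons _ v h1 ?_ hE
      have h2 : ∑ u ∈ S.erase v, m u v = ∑ u ∈ S, m u v := by
        rw [← sum_self hl (S.erase v) h1, Finset.insert_erase hv]
      rw [h2]
      refine ⟨fun _ => (Finset.ne_of_mem_erase hr).symm, fun _ => hodd⟩
  · rintro ⟨r, hr, hE⟩
    have h1 := hE.root hr
    clear hE hr
    induction h1 with
    | refl => exact Reducible.single r
    | cons S v hv hp hE ih =>
      refine Reducible.step _ v (Finset.mem_insert_self v S) ?_ ?_
      · rw [sum_self hl S hv, hp]
        rintro rfl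
        exact hv (hE.sub (Finset.mem_singleton_self _))
      · rw [Finset.erase_insert hv]; exact ih

/-- adding a first vertex. -/
theorem Ext.first {m : W → W → ℕ} {T T' : Set W} {S : Finset W} {v : W} (h : Ext m T' ∅ S)
    (hvS : v ∉ S) (hv : v ∉ T) (hT : ∀ u ∈ S, (u ∈ T' ↔ (u ∈ T ↔ ¬ Odd (m v u)))) :
    Ext m T ∅ (insert v S) := by
  induction h with
  | refl => exact Ext.cons ∅ v (Finset.notMem_empty v) (by simp [hv]) Ext.refl
  | cons S w hw hp hE ih =>
    have hvS' : v ∉ S := fun h => hvS (Finset.mem_insert_of_mem h)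
    have hvw : v ≠ w := by rintro rfl; exact hvS (Finset.mem_insert_self _ _)
    rw [Finset.insert_comm]
    refine Ext.cons _ w ?_ ?_ (ih hvS' fun u hu => hT u (Finset.mem_insert_of_mem hu))
    · rw [Finset.mem_insert, not_or]; exact ⟨hvw.symm, hw⟩
    · rw [Finset.sum_insert hvS', Nat.odd_add, ← Nat.not_odd_iff_even, hp,
        hT w (Finset.mem_insert_self w S)]
      by_cases h1 : w ∈ T <;> by_cases h2 : Odd (m v w) <;> simp [h1, h2]

/-- universality. -/
theorem Reducible.universal {m : W → W → ℕ} (hl : ∀ u, m u u = 0) (hs : ∀ u v, m u v = m v u)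
    {S : Finset W} (h : Reducible m S) :
    ∀ T : Set W, (∃ k : ℕ, ∃ A : Finset W, A.card = 2 * k + 1 ∧ A ⊆ S ∧
      ∀ v ∈ S, v ∈ T ↔ v ∉ A) → Ext m T ∅ S := by
  induction h with
  | single r =>
    rintro T ⟨k, A, hA, hAS, hT⟩
    have h1 : A = {r} := by
      apply Finset.eq_of_subset_of_card_le hAS
      rw [Finset.card_singleton, hA]; omega
    have h2 : r ∉ T := by
      rw [hT r (Finset.mem_singleton_self r), h1]; simp
    exact Ext.cons ∅ r (Finset.notMem_empty r) (by simp [h2]) Ext.refl
  | step S v hv hodd h ih =>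
    rintro T ⟨k, A, hA, hAS, hT⟩
    have h1 : v ∉ S.erase v := Finset.notMem_erase v S
    have h2 : ∑ u ∈ S.erase v, m u v = ∑ u ∈ S, m u v := by
      rw [← sum_self hl (S.erase v) h1, Finset.insert_erase hv]
    rw [← Finset.insert_erase hv]
    by_cases hvT : v ∈ T
    · have hvA : v ∉ A := (hT v hv).mp hvT
      refine Ext.cons _ v h1 ?_ (ih T ⟨k, A, hA, ?_, ?_⟩)
      · rw [h2]; exact ⟨fun _ => hvT, fun _ => hodd⟩
      · intro u hu
        rw [Finset.mem_erase]
        exact ⟨by rintro rfl; exact hvA hu, hAS hu⟩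
      · intro u hu; exact hT u (Finset.mem_of_mem_erase hu)
    · have hvA : v ∈ A := by
        by_contra h; exact hvT ((hT v hv).mpr h)
      -- new exceptional set: `(A \ {v}) ∆ N`
      set N : Finset W := (S.erase v).filter (fun u => Odd (m v u)) with hN
      have hNcard : Odd N.card := by
        have h3 : Odd (∑ u ∈ S.erase v, m u v) := by rw [h2]; exact hodd
        rw [Finset.odd_sum_iff_odd_card_odd] at h3
        have h4 : (S.erase v).filter (fun u => Odd (m u v)) = N := by
          rw [hN]; refine Finset.filter_congr fun u _ => by rw [hs]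
        rw [h4] at h3; exact h3
      set A' : Finset W := symmDiff (A.erase v) N with hA'
      have hAe : (A.erase v).card = 2 * k := by
        rw [Finset.card_erase_of_mem hvA, hA]; rfl
      have hA'card : Odd A'.card := by
        have h5 : A'.card + 2 * ((A.erase v) ∩ N).card = (A.erase v).card + N.card := by
          have e1 : A' = ((A.erase v) \ N) ∪ (N \ (A.erase v)) := rfl
          rw [e1, Finset.card_union_of_disjoint disjoint_sdiff_sdiff]
          have e2 := Finset.card_sdiff_add_card_inter (A.erase v) N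
          have e3 := Finset.card_sdiff_add_card_inter N (A.erase v)
          rw [Finset.inter_comm N] at e3
          omega
        obtain ⟨j, hj⟩ := hNcard
        rw [Nat.odd_iff]
        omega
      obtain ⟨k', hk'⟩ := hA'card
      have hA'S : A' ⊆ S.erase v := by
        intro u hu
        rw [hA', Finset.mem_symmDiff] at hu
        rcases hu with hu | hu
        · exact Finset.mem_erase.mpr ⟨Finset.ne_of_mem_erase hu.1,
            hAS (Finset.mem_of_mem_erase hu.1)⟩
        · exact (Finset.mem_filter.mp hu.1).1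
      have hE := ih {u | u ∉ A'} ⟨k', A', hk', hA'S, fun u _ => Iff.rfl⟩
      refine hE.first h1 hvT ?_
      intro u hu
      have hu1 := hT u (Finset.mem_of_mem_erase hu)
      have hu2 : u ≠ v := Finset.ne_of_mem_erase hu
      have hu3 : u ∈ N ↔ Odd (m v u) := by
        rw [hN, Finset.mem_filter]; exact ⟨fun h => h.2, fun h => ⟨hu, h⟩⟩
      have hu4 : u ∈ A.erase v ↔ u ∈ A := by
        rw [Finset.mem_erase]; exact ⟨fun h => h.2, fun h => ⟨hu2, h⟩⟩
      rw [Set.mem_ofPred_eq, hA', Finset.mem_symmDiff, hu3, hu4, hu1]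
      by_cases c1 : u ∈ A <;> by_cases c2 : Odd (m v u) <;> simp [c1, c2]

/-- root independence. -/
theorem Reducible.any_root {m : W → W → ℕ} (hl : ∀ u, m u u = 0) (hs : ∀ u v, m u v = m v u)
    {S : Finset W} (h : Reducible m S) {a : W} (ha : a ∈ S) : Ext m {v | v ≠ a} {a} S := by
  apply Ext.root ha
  refine h.universal hl hs _ ⟨0, {a}, by simp, by simpa using ha, ?_⟩
  intro v _
  simp

theorem reducible_of_root {m : W → W → ℕ} (hl : ∀ u, m u u = 0)
    {S : Finset W} {a : W} (h : Ext m {v | v ≠ a} {a} S) : Reducible m S :=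
  (reducible_iff hl S).mpr ⟨a, h.sub (Finset.mem_singleton_self a), h.of_root⟩

end Pool.Agent.H796R3.AO
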