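import Pool.Agent.H796R3.AO.Defs

set_option autoImplicit false

/-!
# Token runs
-/

namespace Pool.Agent.H796R3.AO

open Finset

variable {V E : Type} [DecidableEq V]

/-- number of tokens. -/
def tok (b : Bool) : ℤ := if b then 1 else 0

/-- performing the edge `e` toggles the states of its endpoints. -/
def tog (Γ : Root V E) (x : V → Bool) (e : E) : V → Bool :=
  fun v => if v ∈ Γ.ends e then !x v else x v

/-- both halves of `e` are ready in state `x`. -/
def Ready (Γ : Root V E) (σ : E → V → Bool) (x : V → Bool) (e : E) : Prop :=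
  ∀ v ∈ Γ.ends e, σ e v = !x v

/-- `l` can be performed from `x`. -/
def RunFrom (Γ : Root V E) (σ : E → V → Bool) : (V → Bool) → List E → Prop
  | _, [] => True
  | x, e :: l => Ready Γ σ x e ∧ RunFrom Γ σ (tog Γ x e) l

/-- final state. -/
def fin (Γ : Root V E) : (V → Bool) → List E → (V → Bool)
  | x, [] => x
  | x, e :: l => fin Γ (tog Γ x e) l

theorem fin_append (Γ : Root V E) (x : V → Bool) (l1 l2 : List E) :
    fin Γ x (l1 ++ l2) = fin Γ (fin Γ x l1) l2 := by
  induction l1 generalizing x with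
  | nil => rfl
  | cons e l ih => simp only [List.cons_append, fin]; exact ih _

theorem runFrom_append (Γ : Root V E) (σ : E → V → Bool) (x : V → Bool) (l1 l2 : List E) :
    RunFrom Γ σ x (l1 ++ l2) ↔ RunFrom Γ σ x l1 ∧ RunFrom Γ σ (fin Γ x l1) l2 := by
  induction l1 generalizing x with
  | nil => simp [RunFrom, fin]
  | cons e l ih => simp only [List.cons_append, RunFrom, fin, ih, and_assoc]

theorem RunFrom.congr {Γ : Root V E} {σ σ' : E → V → Bool} {x : V → Bool} {l : List E}
    (h : RunFrom Γ σ x l) (hl : ∀ e ∈ l, ∀ v ∈ Γ.ends e, σ e v = σ' e v) :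
    RunFrom Γ σ' x l := by
  induction l generalizing x with
  | nil => trivial
  | cons e l ih =>
    refine ⟨fun v hv => ?_, ih h.2 fun f hf => hl f (List.mem_cons_of_mem _ hf)⟩
    rw [← hl e List.mem_cons_self v hv]; exact h.1 v hv

/-- contribution of `e` at `v`. -/
def con (Γ : Root V E) (σ : E → V → Bool) (v : V) (e : E) : ℤ :=
  if v ∈ Γ.ends e then sgn (σ e v) else 0

/-- net in-minus-out at `v` over `R`. -/
def net (Γ : Root V E) (σ : E → V → Bool) (R : Finset E) (v : V) : ℤ := ∑ e ∈ R, con Γ σ v e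

theorem tok_tog {Γ : Root V E} {σ : E → V → Bool} {x : V → Bool} {e : E}
    (h : Ready Γ σ x e) (v : V) : tok (tog Γ x e v) = tok (x v) + con Γ σ v e := by
  unfold tog con
  by_cases hv : v ∈ Γ.ends e
  · rw [if_pos hv, if_pos hv, h v hv]
    cases x v <;> simp [tok, sgn]
  · rw [if_neg hv, if_neg hv, add_zero]

theorem tok_fin {Γ : Root V E} {σ : E → V → Bool} {x : V → Bool} {l : List E}
    (h : RunFrom Γ σ x l) (v : V) :
    tok (fin Γ x l v) = tok (x v) + (l.map (con Γ σ v)).sum := by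
  induction l generalizing x with
  | nil => simp [fin]
  | cons e l ih =>
    simp only [fin, List.map_cons, List.sum_cons]
    rw [ih h.2, tok_tog h.1]; ring

/-- `+1` if the half-edge is ready, `-1` otherwise. -/
def rho (σ : E → V → Bool) (x : V → Bool) (e : E) (v : V) : ℤ := if σ e v = !x v then 1 else -1

/-- sign of a state. -/
def sx (b : Bool) : ℤ := if b then -1 else 1

theorem rho_eq (σ : E → V → Bool) (x : V → Bool) (e : E) (v : V) :
    rho σ x e v = sx (x v) * sgn (σ e v) := by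
  unfold rho sx sgn
  cases σ e v <;> cases x v <;> simp

theorem ends_pair (Γ : Root V E) (e : E) : ∃ a b, a ≠ b ∧ Γ.ends e = {a, b} :=
  Finset.card_eq_two.mp (Γ.card_ends e)

theorem rho_sum_le {Γ : Root V E} {σ : E → V → Bool} {x : V → Bool} {e : E}
    (h : ¬ Ready Γ σ x e) : ∑ v ∈ Γ.ends e, rho σ x e v ≤ 0 := by
  obtain ⟨a, b, hab, he⟩ := ends_pair Γ e
  rw [he, Finset.sum_pair hab]
  unfold Ready at h
  rw [he] at h
  unfold rho
  by_cases h1 : σ e a = !x a <;> by_cases h2 : σ e b = !x b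
  · exfalso; apply h; intro v hv
    rcases Finset.mem_insert.mp hv with rfl | hv
    · exact h1
    · rw [Finset.mem_singleton] at hv; rw [hv]; exact h2
  · rw [if_pos h1, if_neg h2]; norm_num
  · rw [if_neg h1, if_pos h2]; norm_num
  · rw [if_neg h1, if_neg h2]; norm_num

theorem double_count [Fintype V] (Γ : Root V E) (R : Finset E) (g : E → V → ℤ) :
    ∑ v : V, ∑ e ∈ R, (if v ∈ Γ.ends e then g e v else 0) = ∑ e ∈ R, ∑ v ∈ Γ.ends e, g e v := by
  rw [Finset.sum_comm]
  refine Finset.sum_congr rfl fun e _ => ?_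
  rw [← Finset.sum_filter]
  refine Finset.sum_congr ?_ fun _ _ => rfl
  ext v; simp

theorem sum_rho (Γ : Root V E) (σ : E → V → Bool) (x : V → Bool) (R : Finset E) (v : V) :
    ∑ e ∈ R, (if v ∈ Γ.ends e then rho σ x e v else 0) = sx (x v) * net Γ σ R v := by
  unfold net
  rw [Finset.mul_sum]
  refine Finset.sum_congr rfl fun e _ => ?_
  unfold con
  by_cases hv : v ∈ Γ.ends e
  · rw [if_pos hv, if_pos hv, rho_eq]
  · rw [if_neg hv, if_neg hv, mul_zero]

theorem deadlock [Fintype V] {Γ : Root V E} {σ : E → V → Bool} {x : V → Bool} {R : Finset E}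
    (h : ∀ v, net Γ σ R v + tok (x v) = 0 ∨ net Γ σ R v + tok (x v) = 1)
    (hd : ∀ e ∈ R, ¬ Ready Γ σ x e) :
    (∀ v, net Γ σ R v = 0) ∧ ∀ e ∈ R, ∑ v ∈ Γ.ends e, rho σ x e v = 0 := by
  have hv : ∀ v : V, 0 ≤ ∑ e ∈ R, (if v ∈ Γ.ends e then rho σ x e v else 0) := by
    intro v
    rw [sum_rho]
    have := h v
    unfold tok at this; unfold sx
    cases hx : x v <;> simp [hx] at this ⊢ <;> omega
  have he : ∀ e ∈ R, ∑ v ∈ Γ.ends e, rho σ x e v ≤ 0 := fun e he => rho_sum_le (hd e he)
  have hdc := double_count Γ R (rho σ x)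
  have h1 : 0 ≤ ∑ v : V, ∑ e ∈ R, (if v ∈ Γ.ends e then rho σ x e v else 0) :=
    Finset.sum_nonneg fun v _ => hv v
  have h2 : ∑ e ∈ R, ∑ v ∈ Γ.ends e, rho σ x e v ≤ 0 := Finset.sum_nonpos he
  have h3 : ∑ v : V, ∑ e ∈ R, (if v ∈ Γ.ends e then rho σ x e v else 0) = 0 := by
    apply le_antisymm _ h1
    rw [hdc]; exact h2
  have h4 : ∑ e ∈ R, ∑ v ∈ Γ.ends e, rho σ x e v = 0 := by rw [← hdc]; exact h3
  refine ⟨fun v => ?_, fun e heR => (Finset.sum_eq_zero_iff_of_nonpos he).mp h4 e heR⟩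
  have := (Finset.sum_eq_zero_iff_of_nonneg (fun v _ => hv v)).mp h3 v (Finset.mem_univ v)
  rw [sum_rho] at this
  rcases mul_eq_zero.mp this with h5 | h5
  · exfalso; unfold sx at h5; cases hxv : x v <;> simp [hxv] at h5
  · exact h5

theorem net_erase [DecidableEq E] {Γ : Root V E} {σ : E → V → Bool} {R : Finset E} {e : E}
    (he : e ∈ R) (v : V) : net Γ σ R v = con Γ σ v e + net Γ σ (R.erase e) v := by
  unfold net
  rw [← Finset.add_sum_erase R _ he]

theorem greedy [Fintype V] [DecidableEq E] (Γ : Root V E) (σ : E → V → Bool) :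
    ∀ (n : ℕ) (R : Finset E), R.card = n → ∀ x : V → Bool,
      (∀ v, net Γ σ R v + tok (x v) = 0 ∨ net Γ σ R v + tok (x v) = 1) →
      ∃ m : List E, m.Nodup ∧ (∀ e ∈ m, e ∈ R) ∧ RunFrom Γ σ x m ∧
        ∀ v, tok (fin Γ x m v) = tok (x v) + net Γ σ R v := by
  intro n
  induction n with
  | zero =>
    intro R hR x _
    rw [Finset.card_eq_zero] at hR
    subst hR
    exact ⟨[], List.nodup_nil, by simp, trivial, fun v => by simp [fin, net]⟩
  | succ n ih =>
    intro R hR x hx
    by_cases hex : ∃ e ∈ R, Ready Γ σ x e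
    · obtain ⟨e, heR, hre⟩ := hex
      have hc : (R.erase e).card = n := by rw [Finset.card_erase_of_mem heR, hR]; rfl
      have key : ∀ v, net Γ σ (R.erase e) v + tok (tog Γ x e v) = net Γ σ R v + tok (x v) := by
        intro v; rw [tok_tog hre, net_erase heR]; ring
      obtain ⟨m, hm1, hm2, hm3, hm4⟩ := ih _ hc (tog Γ x e) (fun v => by rw [key]; exact hx v)
      refine ⟨e :: m, ?_, ?_, ⟨hre, hm3⟩, ?_⟩
      · rw [List.nodup_cons]
        exact ⟨fun h => absurd (hm2 e h) (Finset.notMem_erase e R), hm1⟩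
      · intro f hf
        rcases List.mem_cons.mp hf with rfl | hf
        · exact heR
        · exact Finset.mem_of_mem_erase (hm2 f hf)
      · intro v
        simp only [fin]
        rw [hm4]
        have := key v
        linarith
    · push Not at hex
      obtain ⟨h0, _⟩ := deadlock hx hex
      exact ⟨[], List.nodup_nil, by simp, trivial, fun v => by simp [fin, h0 v]⟩

theorem tok_inj {a b : Bool} (h : tok a = tok b) : a = b := by
  cases a <;> cases b <;> simp [tok] at h ⊢

theorem insertion [Fintype V] [DecidableEq E] {Γ : Root V E} {σ : E → V → Bool} {R : Finset E}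
    {x : V → Bool} {e : E} (he : e ∈ R) (hre : Ready Γ σ x e) (h0 : ∀ v, net Γ σ R v = 0) :
    ∃ m : List E, m ≠ [] ∧ m.Nodup ∧ (∀ e ∈ m, e ∈ R) ∧ RunFrom Γ σ x m ∧ fin Γ x m = x := by
  have key : ∀ v, net Γ σ (R.erase e) v + tok (tog Γ x e v) = tok (x v) := by
    intro v
    have := h0 v
    rw [net_erase he] at this
    rw [tok_tog hre]; linarith
  obtain ⟨m, hm1, hm2, hm3, hm4⟩ := greedy Γ σ _ (R.erase e) rfl (tog Γ x e) (fun v => by
    rw [key]; unfold tok; cases x v <;> simp)
  refine ⟨e :: m, by simp, ?_, ?_, ⟨hre, hm3⟩, ?_⟩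
  · rw [List.nodup_cons]
    exact ⟨fun h => absurd (hm2 e h) (Finset.notMem_erase e R), hm1⟩
  · intro f hf
    rcases List.mem_cons.mp hf with rfl | hf
    · exact he
    · exact Finset.mem_of_mem_erase (hm2 f hf)
  · funext v
    simp only [fin]
    apply tok_inj
    rw [hm4]
    have := key v
    linarith

end Pool.Agent.H796R3.AO
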