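import Pool.Agent.H796R3.AO.Run

set_option autoImplicit false

/-!
# Scheduling: a balanced labelling can be performed completely after local changes
-/

namespace Pool.Agent.H796R3.AO

open Finset

variable {V E : Type} [DecidableEq V]

theorem bool_not_eq {a b : Bool} (h : ¬ a = b) : (!a) = b := by
  cases a <;> cases b <;> simp at h ⊢

theorem rho_sum_ne {Γ : Root V E} {σ : E → V → Bool} {x : V → Bool} {e : E}
    (h : ∑ v ∈ Γ.ends e, rho σ x e v ≠ 0) :
    Ready Γ σ x e ∨ Ready Γ (fun e v => !σ e v) x e := by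
  obtain ⟨a, b, hab, he⟩ := ends_pair Γ e
  unfold Ready
  rw [he, Finset.sum_pair hab] at h
  rw [he]
  unfold rho at h
  by_cases h1 : σ e a = !x a <;> by_cases h2 : σ e b = !x b
  · left; intro v hv
    rcases Finset.mem_insert.mp hv with rfl | hv
    · exact h1
    · rw [Finset.mem_singleton] at hv; rw [hv]; exact h2
  · rw [if_pos h1, if_neg h2] at h; norm_num at h
  · rw [if_neg h1, if_pos h2] at h; norm_num at h
  · right; intro v hv
    rcases Finset.mem_insert.mp hv with rfl | hv
    · exact bool_not_eq h1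
    · rw [Finset.mem_singleton] at hv; rw [hv]
      exact bool_not_eq h2

theorem rho_sum_zero {Γ : Root V E} {σ : E → V → Bool} {x : V → Bool} {e : E} {a b : V}
    (hab : a ≠ b) (he : Γ.ends e = {a, b}) (h : ∑ v ∈ Γ.ends e, rho σ x e v = 0) :
    (σ e a = σ e b ↔ x a ≠ x b) := by
  rw [he, Finset.sum_pair hab] at h
  unfold rho at h
  cases h1 : σ e a <;> cases h2 : σ e b <;> cases h3 : x a <;> cases h4 : x b <;>
    simp [h1, h2, h3, h4] at h ⊢

theorem net_eq_sum [Fintype E] (Γ : Root V E) (σ : E → V → Bool) (v : V) :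
    net Γ σ Finset.univ v = ∑ e with v ∈ Γ.ends e, sgn (σ e v) := by
  unfold net con
  rw [Finset.sum_filter]

theorem list_sum_eq [DecidableEq E] {Γ : Root V E} {σ : E → V → Bool} {l : List E} (hl : l.Nodup)
    (v : V) : (l.map (con Γ σ v)).sum = net Γ σ l.toFinset v := by
  unfold net
  exact (List.sum_toFinset _ hl).symm

theorem net_split [Fintype E] [DecidableEq E] (Γ : Root V E) (σ : E → V → Bool) (R : Finset E)
    (v : V) : net Γ σ Finset.univ v = net Γ σ R v + net Γ σ Rᶜ v := by
  unfold net
  exact (Finset.sum_add_sum_compl R _).symm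

/-- one step of the maximality argument. -/
theorem step [Fintype V] [Fintype E] [DecidableEq E] (Γ : Root V E) (T : Set E)
    (hc : ∀ e, ∃ f, f ∉ T ∧ Γ.line.Reachable e f) (σ : E → V → Bool) (hσ : Balanced Γ T σ)
    (l : List E) (hl : l.Nodup) (hr : RunFrom Γ σ (fun _ => false) l) (e0 : E) (he0 : e0 ∉ l) :
    ∃ σ' l', Balanced Γ T σ' ∧ l'.Nodup ∧ RunFrom Γ σ' (fun _ => false) l' ∧
      l.length < l'.length := by
  set R : Finset E := l.toFinsetᶜ with hR
  have hRmem : ∀ e, e ∈ R ↔ e ∉ l := by intro e; simp [hR]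
  by_cases hex : ∃ e ∈ R, Ready Γ σ (fin Γ (fun _ => false) l) e
  · obtain ⟨e, heR, hre⟩ := hex
    refine ⟨σ, l ++ [e], hσ, ?_, ?_, by simp⟩
    · rw [List.nodup_append]
      refine ⟨hl, List.nodup_singleton e, ?_⟩
      intro a ha b hb
      rw [List.mem_singleton] at hb
      rintro rfl
      rw [hb] at ha
      exact (hRmem e).mp heR ha
    · rw [runFrom_append]
      exact ⟨hr, hre, trivial⟩
  push Not at hex
  have hnet : ∀ v, net Γ σ R v + tok (fin Γ (fun _ => false) l v) = 0 ∨
      net Γ σ R v + tok (fin Γ (fun _ => false) l v) = 1 := by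
    intro v
    have h1 := hσ.vert v
    rw [← net_eq_sum, net_split Γ σ R v] at h1
    have h2 : Rᶜ = l.toFinset := by rw [hR, compl_compl]
    rw [h2, ← list_sum_eq hl] at h1
    have h3 := tok_fin hr v
    have h4 : tok false = 0 := rfl
    simp only [h4, zero_add] at h3
    rw [h3]
    exact h1
  obtain ⟨hn0, _⟩ := deadlock hnet hex
  by_cases hcase : ∃ l1 l2, l = l1 ++ l2 ∧ ∃ e ∈ R,
      ∑ v ∈ Γ.ends e, rho σ (fin Γ (fun _ => false) l1) e v ≠ 0
  · obtain ⟨l1, l2, hl12, e, heR, hne⟩ := hcase
    -- the new labelling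
    have main : ∀ σ' : E → V → Bool, Balanced Γ T σ' → (∀ f ∈ l, ∀ v, σ f v = σ' f v) →
        (∀ v, net Γ σ' R v = 0) → Ready Γ σ' (fin Γ (fun _ => false) l1) e →
        ∃ σ' l', Balanced Γ T σ' ∧ l'.Nodup ∧ RunFrom Γ σ' (fun _ => false) l' ∧
          l.length < l'.length := by
      intro σ' hb hag hn hre
      obtain ⟨m, hm0, hm1, hm2, hm3, hm4⟩ := insertion heR hre hn
      rw [hl12, runFrom_append] at hr
      refine ⟨σ', l1 ++ (m ++ l2), hb, ?_, ?_, ?_⟩
      · have hperm : (l1 ++ (m ++ l2)).Perm (m ++ l) := by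
          rw [hl12]
          calc (l1 ++ (m ++ l2)).Perm ((m ++ l2) ++ l1) := List.perm_append_comm
            _ = m ++ (l2 ++ l1) := by rw [List.append_assoc]
            _ |>.Perm (m ++ (l1 ++ l2)) := List.Perm.append_left m List.perm_append_comm
        rw [hperm.nodup_iff, List.nodup_append]
        refine ⟨hm1, hl, ?_⟩
        intro a ha b hb'
        rintro rfl
        exact (hRmem a).mp (hm2 a ha) hb'
      · rw [runFrom_append, runFrom_append, hm4]
        refine ⟨hr.1.congr fun f hf v _ => hag f ?_ v, hm3, hr.2.congr fun f hf v _ => hag f ?_ v⟩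
        · rw [hl12]; exact List.mem_append_left _ hf
        · rw [hl12]; exact List.mem_append_right _ hf
      · rw [hl12]
        simp only [List.length_append]
        have : 0 < m.length := List.length_pos_of_ne_nil hm0
        omega
    rcases rho_sum_ne hne with h | h
    · exact main σ hσ (fun _ _ _ => rfl) hn0 h
    · let σ' : E → V → Bool := fun f v => if f ∈ R then !σ f v else σ f v
      have hin : ∀ f ∈ R, ∀ v, σ' f v = !σ f v := fun f hf v => if_pos hf
      have hout : ∀ f, f ∉ R → ∀ v, σ' f v = σ f v := fun f hf v => if_neg hf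
      have hneg : ∀ v, net Γ σ' R v = 0 := by
        intro v
        have : net Γ σ' R v = - net Γ σ R v := by
          unfold net
          rw [← Finset.sum_neg_distrib]
          refine Finset.sum_congr rfl fun f hf => ?_
          unfold con
          by_cases hv : v ∈ Γ.ends f
          · rw [if_pos hv, if_pos hv, hin f hf]
            cases σ f v <;> simp [sgn]
          · rw [if_neg hv, if_neg hv, neg_zero]
        rw [this, hn0, neg_zero]
      refine main σ' ⟨?_, ?_⟩ ?_ hneg ?_
      · intro f v hv w hw hvw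
        rw [← hσ.edge f v hv w hw hvw]
        by_cases hf : f ∈ R
        · rw [hin f hf, hin f hf]
          cases σ f v <;> cases σ f w <;> simp
        · rw [hout f hf, hout f hf]
      · intro v
        have h1 := hσ.vert v
        rw [← net_eq_sum, net_split Γ σ R v, hn0 v] at h1
        rw [← net_eq_sum, net_split Γ σ' R v, hneg v]
        have h2 : net Γ σ' Rᶜ v = net Γ σ Rᶜ v := by
          unfold net
          refine Finset.sum_congr rfl fun f hf => ?_
          unfold con
          rw [hout f (Finset.mem_compl.mp hf)]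
        rw [h2]; exact h1
      · intro f hf v
        rw [hout f (fun h => (hRmem f).mp h hf)]
      · intro v hv
        rw [hin e heR]; exact h v hv
  -- now every unperformed edge has exactly one ready half at all times
  exfalso
  push Not at hcase
  have hT : ∀ e ∈ R, e ∈ T := by
    intro e heR
    obtain ⟨a, b, hab, he⟩ := ends_pair Γ e
    have h0 := hcase [] l rfl e heR
    have h1 := rho_sum_zero hab he h0
    have h2 : ¬ (σ e a = σ e b) := by
      rw [h1]; simp [fin]
    exact (hσ.edge e a (by simp [he]) b (by simp [he]) hab).mp h2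
  have hcl : ∀ e ∈ R, ∀ f, Γ.line.Adj e f → f ∈ R := by
    intro e heR f hadj
    rw [hRmem]
    intro hfl
    obtain ⟨l1, l2, hl12⟩ := List.append_of_mem hfl
    obtain ⟨a, b, hab, he⟩ := ends_pair Γ e
    have hne : ¬ (σ e a = σ e b) :=
      (hσ.edge e a (by simp [he]) b (by simp [he]) hab).mpr (hT e heR)
    have h1 := rho_sum_zero hab he (hcase l1 (f :: l2) hl12 e heR)
    have h2 := rho_sum_zero hab he (hcase (l1 ++ [f]) l2 (by rw [hl12]; simp) e heR)
    rw [fin_append] at h2
    simp only [fin] at h2
    have h3 : fin Γ (fun _ => false) l1 a = fin Γ (fun _ => false) l1 b := by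
      by_contra h; exact hne (h1.mpr h)
    have h4 : tog Γ (fin Γ (fun _ => false) l1) f a = tog Γ (fin Γ (fun _ => false) l1) f b := by
      by_contra h; exact hne (h2.mpr h)
    unfold tog at h4
    have h5 : (a ∈ Γ.ends f ↔ b ∈ Γ.ends f) := by
      by_cases ha : a ∈ Γ.ends f <;> by_cases hb : b ∈ Γ.ends f
      · exact ⟨fun _ => hb, fun _ => ha⟩
      · rw [if_pos ha, if_neg hb, h3] at h4
        exfalso; revert h4; cases fin Γ (fun _ => false) l1 b <;> simp
      · rw [if_neg ha, if_pos hb, h3] at h4
        exfalso; revert h4; cases fin Γ (fun _ => false) l1 b <;> simp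
      · exact ⟨fun h => absurd h ha, fun h => absurd h hb⟩
    have h6 : (Γ.ends e ∩ Γ.ends f).card = 1 := hadj
    rw [he] at h6
    by_cases ha : a ∈ Γ.ends f
    · have hb := h5.mp ha
      have : ({a, b} : Finset V) ∩ Γ.ends f = {a, b} := by
        apply Finset.inter_eq_left.mpr
        intro v hv
        rcases Finset.mem_insert.mp hv with rfl | hv
        · exact ha
        · rw [Finset.mem_singleton] at hv; rw [hv]; exact hb
      rw [this, Finset.card_pair hab] at h6
      norm_num at h6
    · have hb : b ∉ Γ.ends f := fun h => ha (h5.mpr h)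
      have : ({a, b} : Finset V) ∩ Γ.ends f = ∅ := by
        rw [← Finset.disjoint_iff_inter_eq_empty]
        rw [Finset.disjoint_left]
        intro v hv
        rcases Finset.mem_insert.mp hv with rfl | hv
        · exact ha
        · rw [Finset.mem_singleton] at hv; rw [hv]; exact hb
      rw [this, Finset.card_empty] at h6
      norm_num at h6
  obtain ⟨f, hfT, ⟨w⟩⟩ := hc e0
  apply hfT
  apply hT
  have he0R : e0 ∈ R := (hRmem e0).mpr he0
  clear hfT
  induction w with
  | nil => exact he0R
  | cons hadj _ ih => exact ih (by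
      exact (hRmem _).mp (hcl _ he0R _ hadj)) (hcl _ he0R _ hadj)

theorem exists_run [Fintype V] [Fintype E] (Γ : Root V E) (T : Set E)
    (hc : ∀ e, ∃ f, f ∉ T ∧ Γ.line.Reachable e f) :
    ∀ (k : ℕ) (σ : E → V → Bool) (l : List E), Balanced Γ T σ → l.Nodup →
      RunFrom Γ σ (fun _ => false) l → Fintype.card E - l.length = k →
      ∃ σ' l', Balanced Γ T σ' ∧ l'.Nodup ∧ (∀ e, e ∈ l') ∧ RunFrom Γ σ' (fun _ => false) l' := by
  classical
  intro k
  induction k using Nat.strong_induction_on with
  | _ k ih =>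
    intro σ l hσ hl hr hk
    by_cases hall : ∀ e, e ∈ l
    · exact ⟨σ, l, hσ, hl, hall, hr⟩
    · push Not at hall
      obtain ⟨e0, he0⟩ := hall
      obtain ⟨σ', l', h1, h2, h3, h4⟩ := step Γ T hc σ hσ l hl hr e0 he0
      have hlen : l'.length ≤ Fintype.card E := h2.length_le_card
      exact ih (Fintype.card E - l'.length) (by omega) σ' l' h1 h2 h3 rfl

end Pool.Agent.H796R3.AO
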