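import Pool.Agent.H796R3.AO.Cone

set_option autoImplicit false

/-!
# Graphs with an acyclic `T`-odd orientation for every admissible `T`
-/

namespace Pool.Agent.H796R3.AO

open Finset

variable {W : Type} [DecidableEq W]

theorem Ext.congr {m : W → W → ℕ} {T T' : Set W} {P S : Finset W} (h : Ext m T P S)
    (hT : ∀ v ∈ S, v ∉ P → (v ∈ T ↔ v ∈ T')) : Ext m T' P S := by
  have := h.restrict (m' := m) (T' := T') (S ∪ P) (fun _ _ _ _ _ _ _ => rfl)
    (fun v _ _ _ u hu hu' => absurd (Finset.mem_union_left P hu) hu') (fun v hv hvP _ => hT v hv hvP)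
  rwa [Finset.inter_eq_left.mpr Finset.subset_union_right,
    Finset.inter_eq_left.mpr Finset.subset_union_left] at this

/-- reversing the order. -/
theorem Ext.reverse {m : W → W → ℕ} (hl : ∀ u, m u u = 0) {T : Set W} {P S : Finset W}
    (h : Ext m T P S) : Ext m {v | ¬ (Odd (∑ u ∈ S, m u v) ↔ v ∈ T)} ∅ (S \ P) := by
  induction h with
  | refl => rw [Finset.sdiff_self]; exact Ext.refl
  | cons S v hv hp hE ih =>
    have hvP : v ∉ P := fun h => hv (hE.sub h)
    rw [Finset.insert_sdiff_of_notMem _ hvP]
    refine ih.first (fun h => hv (Finset.mem_sdiff.mp h).1) ?_ ?_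
    · rw [Set.mem_ofPred_eq, not_not, sum_self hl S hv]; exact hp
    · intro u hu
      rw [Set.mem_ofPred_eq, Set.mem_ofPred_eq, Finset.sum_insert hv, Nat.odd_add,
        ← Nat.not_odd_iff_even]
      by_cases h1 : Odd (m v u) <;> by_cases h2 : Odd (∑ w ∈ S, m w u) <;>
        by_cases h3 : u ∈ T <;> simp [h1, h2, h3]

theorem card_odd_even [Fintype W] {m : W → W → ℕ} {k : ℕ} (hk : ∑ u, ∑ v, m u v = 2 * k)
    (hs : ∀ u v, m u v = m v u) :
    Even (Finset.univ.filter fun v => Odd (∑ u, m u v)).card := by
  have h : Even (∑ v, ∑ u, m u v) := by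
    have e : ∑ v, ∑ u, m u v = ∑ u, ∑ v, m u v :=
      Finset.sum_congr rfl fun v _ => Finset.sum_congr rfl fun u _ => hs u v
    rw [e, hk]; exact even_two_mul k
  rwa [Finset.even_sum_iff_even_card_odd] at h

theorem edges_even [Fintype W] {m : W → W → ℕ} (hl : ∀ u, m u u = 0)
    (hs : ∀ u v, m u v = m v u) (S : Finset W) : ∃ k, ∑ u ∈ S, ∑ v ∈ S, m u v = 2 * k := by
  induction S using Finset.induction_on with
  | empty => exact ⟨0, by simp⟩
  | insert v S hv ih =>
    obtain ⟨k, hk⟩ := ih
    refine ⟨k + ∑ u ∈ S, m u v, ?_⟩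
    rw [Finset.sum_insert hv, Finset.sum_insert hv, hl, zero_add]
    have e1 : ∑ u ∈ S, ∑ w ∈ insert v S, m u w = ∑ u ∈ S, (m u v + ∑ w ∈ S, m u w) :=
      Finset.sum_congr rfl fun u _ => Finset.sum_insert hv
    rw [e1, Finset.sum_add_distrib, hk]
    have e2 : ∑ w ∈ S, m v w = ∑ u ∈ S, m u v := Finset.sum_congr rfl fun u _ => hs v u
    rw [e2]; ring

/-- in an Eulerian graph, reducibility after deleting one vertex does not depend on the vertex. -/
theorem eulerian_erase [Fintype W] {m : W → W → ℕ} (hl : ∀ u, m u u = 0)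
    (hs : ∀ u v, m u v = m v u) (he : ∀ v, Even (∑ u, m u v)) {v0 w : W}
    (h : Reducible m (Finset.univ.erase v0)) : Reducible m (Finset.univ.erase w) := by
  by_cases hw : w = v0
  · subst hw; exact h
  have hw0 : w ∈ Finset.univ.erase v0 := Finset.mem_erase.mpr ⟨hw, Finset.mem_univ w⟩
  have h1 := h.any_root hl hs hw0
  have h2 : Ext m {v | v ≠ w ∧ v ≠ v0} {w} (insert v0 (Finset.univ.erase v0)) := by
    refine Ext.cons _ v0 (Finset.notMem_erase v0 _) ?_ (h1.congr ?_)
    · rw [← sum_self hl _ (Finset.notMem_erase v0 Finset.univ),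
        Finset.insert_erase (Finset.mem_univ v0)]
      refine ⟨fun h => absurd h (Nat.not_odd_iff_even.mpr (he v0)), fun h => absurd rfl h.2⟩
    · intro v hv _
      rw [Set.mem_ofPred_eq, Set.mem_ofPred_eq]
      exact ⟨fun h => ⟨h, Finset.ne_of_mem_erase hv⟩, fun h => h.1⟩
  rw [Finset.insert_erase (Finset.mem_univ v0)] at h2
  have h3 := h2.reverse hl
  have e1 : (Finset.univ : Finset W) \ {w} = Finset.univ.erase w := by
    ext v; simp
  rw [e1] at h3
  refine (reducible_iff hl _).mpr ⟨v0, Finset.mem_erase.mpr ⟨fun h => hw h.symm,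
    Finset.mem_univ _⟩, h3.congr ?_⟩
  intro v hv _
  rw [Set.mem_ofPred_eq, Set.mem_ofPred_eq]
  have h4 : ¬ Odd (∑ u, m u v) := Nat.not_odd_iff_even.mpr (he v)
  have h5 : v ≠ w := Finset.ne_of_mem_erase hv
  constructor
  · intro h6
    by_contra h7
    exact h6 ⟨fun h => absurd h h4, fun h => absurd h.2 h7⟩
  · intro h6 h7
    exact h4 (h7.mpr ⟨h5, h6⟩)

theorem ext_last [Fintype W] {m : W → W → ℕ} (hl : ∀ u, m u u = 0) {T : Set W}
    (h : Ext m T ∅ (Finset.univ : Finset W)) [Nonempty W] :
    ∃ x, (Odd (∑ u, m u x) ↔ x ∈ T) ∧ Ext m T ∅ (Finset.univ.erase x) := by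
  generalize hU : (Finset.univ : Finset W) = U at h
  cases h with
  | refl =>
    exfalso
    have : (Classical.arbitrary W) ∈ (∅ : Finset W) := by rw [← hU]; exact Finset.mem_univ _
    exact absurd this (Finset.notMem_empty _)
  | cons S v hv hp hE =>
    refine ⟨v, ?_, ?_⟩
    · rw [← hp, ← sum_self hl S hv]
    · rw [Finset.erase_insert hv]; exact hE

theorem universal_iff [Fintype W] [Nonempty W] (G : MGraph W) :
    (∀ T : Set W, T ≠ Set.univ → (∃ k, ∑ u, ∑ v, G.m u v = 2 * k ∧ Even (k + T.ncard)) →
      HasAcyclicTOdd G T) ↔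
    Reducible G.m Finset.univ ∨
      ((∀ v, Even (∑ u, G.m u v)) ∧ ∃ v, Reducible G.m (Finset.univ.erase v)) := by
  classical
  have hcompl : ∀ T : Set W, T.ncard + (Tᶜ).ncard = Fintype.card W := fun T => by
    rw [Set.ncard_add_ncard_compl, Nat.card_eq_fintype_card]
  obtain ⟨k, hk⟩ := edges_even G.loopless G.symm (Finset.univ : Finset W)
  constructor
  · intro h
    by_cases hpar : Odd (k + Fintype.card W)
    · left
      let r : W := Classical.arbitrary W
      rw [reducible_iff_root G r]
      refine h _ ?_ ⟨k, hk, ?_⟩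
      · intro he
        have : r ∈ ({v | v ≠ r} : Set W) := by rw [he]; trivial
        exact this rfl
      · have h1 := hcompl {v | v ≠ r}
        have h2 : ({v | v ≠ r} : Set W)ᶜ = {r} := by ext v; simp
        rw [h2, Set.ncard_singleton] at h1
        rw [Nat.odd_iff] at hpar
        rw [Nat.even_iff]; omega
    · right
      rw [Nat.not_odd_iff_even] at hpar
      have heul : ∀ v, Even (∑ u, G.m u v) := by
        by_contra hne
        let Tb : Set W := {v | Even (∑ u, G.m u v)}
        have hTb : Tb ≠ Set.univ := by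
          intro he
          apply hne
          intro v
          have : v ∈ Tb := by rw [he]; trivial
          exact this
        have h1 := card_odd_even hk G.symm
        have h2 : Tbᶜ = ((Finset.univ.filter fun v => Odd (∑ u, G.m u v) : Finset W) : Set W) := by
          ext v
          simp [Tb]
        have h3 := hcompl Tb
        rw [h2, Set.ncard_coe_finset] at h3
        have h4 := h Tb hTb ⟨k, hk, by
          rw [Nat.even_iff] at h1 hpar ⊢; omega⟩
        rw [hasAcyclicTOdd_iff] at h4
        obtain ⟨x, hx, _⟩ := ext_last G.loopless h4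
        have hx' : Odd (∑ u, G.m u x) ↔ Even (∑ u, G.m u x) := hx
        rw [← Nat.not_odd_iff_even] at hx'
        by_cases ho : Odd (∑ u, G.m u x)
        · exact hx'.mp ho ho
        · exact ho (hx'.mpr ho)
      refine ⟨heul, ?_⟩
      let r : W := Classical.arbitrary W
      have hcard : 2 ≤ Fintype.card W := by
        by_contra hlt
        have hpos : 0 < Fintype.card W := Fintype.card_pos
        have h1 : Fintype.card W = 1 := by omega
        obtain ⟨x, hx⟩ := Fintype.card_eq_one_iff.mp h1
        have h2 : ∑ u, ∑ v, G.m u v = 0 := by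
          apply Finset.sum_eq_zero; intro u _
          apply Finset.sum_eq_zero; intro v _
          rw [hx u, hx v]; exact G.loopless x
        rw [hk] at h2
        have h3 : k = 0 := by omega
        rw [h3, h1] at hpar
        exact absurd hpar (by decide)
      obtain ⟨s, hs⟩ : ∃ s : W, s ≠ r := by
        have : 1 < Fintype.card W := hcard
        exact Fintype.exists_ne_of_one_lt_card this r
      have h4 := h {v | v ≠ r ∧ v ≠ s} (by
        intro he
        have : r ∈ ({v | v ≠ r ∧ v ≠ s} : Set W) := by rw [he]; trivial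
        exact this.1 rfl) ⟨k, hk, by
        have h1 := hcompl {v | v ≠ r ∧ v ≠ s}
        have h2 : ({v | v ≠ r ∧ v ≠ s} : Set W)ᶜ = {r, s} := by
          ext v
          simp only [Set.mem_compl_iff, Set.mem_ofPred_eq, Set.mem_insert_iff,
            Set.mem_singleton_iff]
          constructor
          · intro h; by_contra hh; push Not at hh; exact h hh
          · rintro (rfl | rfl)
            · exact fun h => h.1 rfl
            · exact fun h => h.2 rfl
        rw [h2, Set.ncard_pair hs.symm] at h1
        rw [Nat.even_iff] at hpar ⊢; omega⟩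
      rw [hasAcyclicTOdd_iff] at h4
      obtain ⟨x, hx, hE⟩ := ext_last G.loopless h4
      have hxT : ¬ (x ≠ r ∧ x ≠ s) := fun hh =>
        absurd (hx.mpr hh) (Nat.not_odd_iff_even.mpr (heul x))
      refine ⟨x, (reducible_iff G.loopless _).mpr ?_⟩
      by_cases hxr : x = r
      · refine ⟨s, Finset.mem_erase.mpr ⟨by rw [hxr]; exact hs, Finset.mem_univ s⟩, hE.congr ?_⟩
        intro v hv _
        rw [Set.mem_ofPred_eq, Set.mem_ofPred_eq]
        have : v ≠ r := by rw [← hxr]; exact Finset.ne_of_mem_erase hv
        exact ⟨fun h => h.2, fun h => ⟨this, h⟩⟩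
      · have hxs : x = s := by
          by_contra hh; exact hxT ⟨hxr, hh⟩
        refine ⟨r, Finset.mem_erase.mpr ⟨fun h => hxr h.symm, Finset.mem_univ r⟩, hE.congr ?_⟩
        intro v hv _
        rw [Set.mem_ofPred_eq, Set.mem_ofPred_eq]
        have : v ≠ s := by rw [← hxs]; exact Finset.ne_of_mem_erase hv
        exact ⟨fun h => h.1, fun h => ⟨h, this⟩⟩
  · rintro (h | ⟨heul, v0, h⟩) T hT ⟨k', hk', hev⟩
    · refine reducible_universal G h T ?_
      obtain ⟨k2, hk2, hko⟩ := reducible_parity G.loopless G.symm h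
      have h1 := hcompl T
      rw [Finset.card_univ] at hko
      have : k2 = k' := by omega
      subst this
      rw [Nat.odd_iff] at hko ⊢
      rw [Nat.even_iff] at hev
      omega
    · obtain ⟨v, hv⟩ : ∃ v, v ∉ T := by
        by_contra hne
        push Not at hne
        exact hT (Set.eq_univ_of_forall hne)
      have hr : Reducible G.m (Finset.univ.erase v) :=
        eulerian_erase G.loopless G.symm heul h
      obtain ⟨k2, hk2, hko⟩ := reducible_parity G.loopless G.symm hr
      -- number of edges
      have hedge : ∑ u, ∑ w, G.m u w = 2 * k2 + 2 * ∑ u, G.m u v := by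
        have e1 : ∀ u, ∑ w, G.m u w = G.m u v + ∑ w ∈ Finset.univ.erase v, G.m u w := fun u =>
          (Finset.add_sum_erase Finset.univ _ (Finset.mem_univ v)).symm
        rw [Finset.sum_congr rfl fun u _ => e1 u, Finset.sum_add_distrib]
        rw [← Finset.add_sum_erase Finset.univ (fun u => ∑ w ∈ Finset.univ.erase v, G.m u w)
          (Finset.mem_univ v), hk2]
        have e2 : ∑ w ∈ Finset.univ.erase v, G.m v w = ∑ u, G.m u v := by
          rw [← Finset.add_sum_erase Finset.univ (fun u => G.m u v) (Finset.mem_univ v),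
            G.loopless, zero_add]
          exact Finset.sum_congr rfl fun u _ => G.symm v u
        rw [e2]; ring
      have hcard : (Finset.univ.erase v).card + 1 = Fintype.card W := by
        rw [Finset.card_erase_of_mem (Finset.mem_univ v), Finset.card_univ]
        have : 0 < Fintype.card W := Fintype.card_pos
        omega
      obtain ⟨d, hd⟩ := heul v
      rw [hasAcyclicTOdd_iff]
      have e : (Finset.univ : Finset W) = insert v (Finset.univ.erase v) :=
        (Finset.insert_erase (Finset.mem_univ v)).symm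
      rw [e]
      refine Ext.cons _ v (Finset.notMem_erase v _) ?_ ?_
      · rw [← sum_self G.loopless _ (Finset.notMem_erase v Finset.univ),
          Finset.insert_erase (Finset.mem_univ v)]
        exact ⟨fun h => absurd h (Nat.not_odd_iff_even.mpr ⟨d, hd⟩), fun h => absurd h hv⟩
      · have hTc : (Tᶜ).ncard = ((Tᶜ).toFinset).card := Set.ncard_eq_toFinset_card' _
        have h1 := hcompl T
        have hvTc : v ∈ (Tᶜ).toFinset := by simpa using hv
        have h2 : (((Tᶜ).toFinset).erase v).card + 1 = ((Tᶜ).toFinset).card :=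
          Finset.card_erase_add_one hvTc
        have h3 : Odd (((Tᶜ).toFinset).erase v).card := by
          rw [Nat.odd_iff] at hko ⊢
          rw [Nat.even_iff] at hev
          omega
        obtain ⟨j, hj⟩ := h3
        refine hr.universal G.loopless G.symm T ⟨j, ((Tᶜ).toFinset).erase v, hj, ?_, ?_⟩
        · exact Finset.erase_subset_erase v (Finset.subset_univ _)
        · intro u hu
          have : u ≠ v := Finset.ne_of_mem_erase hu
          simp [this]

end Pool.Agent.H796R3.AO
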